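import Mathlib

/-!
MP_bbc525_pr (helper767): scalar inequalities for the entropy function, through power series.
-/

set_option autoImplicit false

namespace Pool.Agent.H767R5.UT

open Finset Filter Topology

theorem hs_congr {f g : ℕ → ℝ} {a : ℝ} (h : ∀ k, f k = g k) (hg : HasSum g a) : HasSum f a := by
  have : f = g := funext h
  rw [this]; exact hg

/-- `φ x = (1+x)/2 log(1+x) + (1-x)/2 log(1-x)`. -/
noncomputable def phi (x : ℝ) : ℝ :=
  (1 + x) / 2 * Real.log (1 + x) + (1 - x) / 2 * Real.log (1 - x)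

/-- `A s = ∑ s^k / (2k+1)` (`= artanh √s / √s`). -/
noncomputable def Aser (s : ℝ) : ℝ := ∑' k : ℕ, s ^ k / (2 * k + 1)

/-- `Φ s = ∑ s^(k+1) / ((2k+1)(2k+2))`. -/
noncomputable def Phi (s : ℝ) : ℝ := ∑' k : ℕ, s ^ (k + 1) / ((2 * k + 1) * (2 * k + 2))

theorem hasSum_A {s : ℝ} (h0 : 0 ≤ s) (h1 : s < 1) :
    HasSum (fun k : ℕ => s ^ k / (2 * k + 1)) (Aser s) := by
  apply Summable.hasSum
  refine Summable.of_nonneg_of_le (fun k => by positivity) (fun k => ?_)
    (summable_geometric_of_lt_one h0 h1)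
  apply div_le_self (by positivity)
  have : (0 : ℝ) ≤ (k : ℝ) := Nat.cast_nonneg k
  linarith

theorem hasSum_Phi {s : ℝ} (h0 : 0 ≤ s) (h1 : s < 1) :
    HasSum (fun k : ℕ => s ^ (k + 1) / ((2 * k + 1) * (2 * k + 2))) (Phi s) := by
  apply Summable.hasSum
  have hg := (summable_geometric_of_lt_one h0 h1)
  refine Summable.of_nonneg_of_le (fun k => by positivity) (fun k => ?_) hg
  have hk : (0 : ℝ) ≤ (k : ℝ) := Nat.cast_nonneg k
  have h2 : s ^ (k + 1) ≤ s ^ k := pow_le_pow_of_le_one h0 h1.le (Nat.le_succ k)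
  refine (div_le_self (by positivity) ?_).trans h2
  nlinarith

theorem A_pos_log {x : ℝ} (hx : |x| < 1) :
    Real.log (1 + x) - Real.log (1 - x) = 2 * x * Aser (x ^ 2) := by
  have h1 := Real.hasSum_log_sub_log_of_abs_lt_one hx
  have hs : x ^ 2 < 1 := by
    rw [← sq_abs]; nlinarith [abs_nonneg x]
  have h2 := (hasSum_A (sq_nonneg x) hs).mul_left (2 * x)
  refine h1.unique (hs_congr (fun k => ?_) h2)
  rw [← pow_mul]
  ring

theorem phi_eq_Phi {x : ℝ} (hx : |x| < 1) : phi x = Phi (x ^ 2) := by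
  have hs : x ^ 2 < 1 := by
    rw [← sq_abs]; nlinarith [abs_nonneg x]
  have hx1 := abs_lt.mp hx
  have h1 := Real.hasSum_log_sub_log_of_abs_lt_one hx
  have h2 : HasSum (fun n : ℕ => (x ^ 2) ^ (n + 1) / (n + 1)) (-Real.log (1 - x ^ 2)) := by
    apply Real.hasSum_pow_div_log_of_abs_lt_one
    rw [abs_of_nonneg (sq_nonneg x)]; exact hs
  have h3 := (h1.mul_left (x / 2)).add (h2.mul_left (-(1 / 2)))
  have h4 := hasSum_Phi (sq_nonneg x) hs
  have hval : phi x = x / 2 * (Real.log (1 + x) - Real.log (1 - x)) +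
      -(1 / 2) * -Real.log (1 - x ^ 2) := by
    have : Real.log (1 - x ^ 2) = Real.log (1 + x) + Real.log (1 - x) := by
      rw [← Real.log_mul (by linarith) (by linarith)]; ring_nf
    rw [this, phi]; ring
  rw [hval]
  refine h3.unique (hs_congr (fun k => ?_) h4)
  have hk : (0 : ℝ) ≤ (k : ℝ) := Nat.cast_nonneg k
  have e1 : x ^ (2 * k + 1) * x = (x ^ 2) ^ (k + 1) := by rw [← pow_mul]; ring
  have : x / 2 * (2 * (1 / (2 * (k : ℝ) + 1)) * x ^ (2 * k + 1)) =
      (x ^ 2) ^ (k + 1) / (2 * k + 1) := by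
    rw [← e1]; field_simp
  rw [this]
  field_simp
  ring

theorem pow_tangent {a b : ℝ} (ha : 0 ≤ a) (hb : 0 ≤ b) (k : ℕ) :
    (k + 1 : ℝ) * b ^ k * (a - b) ≤ a ^ (k + 1) - b ^ (k + 1) := by
  induction k with
  | zero => simp
  | succ k ih =>
    have h1 : (a - b) * (a ^ (k + 1) - b ^ (k + 1)) ≥ 0 := by
      rcases le_total a b with h | h
      · have := pow_le_pow_left₀ ha h (k + 1)
        nlinarith
      · have := pow_le_pow_left₀ hb h (k + 1)
        nlinarith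
    have h2 : b * ((k + 1 : ℝ) * b ^ k * (a - b)) ≤ b * (a ^ (k + 1) - b ^ (k + 1)) :=
      mul_le_mul_of_nonneg_left ih hb
    push_cast
    have e1 : a ^ (k + 1 + 1) = a * a ^ (k + 1) := by ring
    have e2 : b ^ (k + 1 + 1) = b * b ^ (k + 1) := by ring
    have e3 : b ^ (k + 1) = b * b ^ k := by ring
    rw [e1, e2]
    rw [e3] at h1 h2 ⊢
    nlinarith

/-- Tangent inequality for `Φ`. -/
theorem Phi_tangent {a b : ℝ} (ha : 0 ≤ a) (ha1 : a < 1) (hb : 0 ≤ b) (hb1 : b < 1) :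
    Phi b + Aser b / 2 * (a - b) ≤ Phi a := by
  have h1 := hasSum_Phi ha ha1
  have h2 := hasSum_Phi hb hb1
  have h3 := (hasSum_A hb hb1).mul_left ((a - b) / 2)
  have h4 := h2.add h3
  have := hasSum_le (fun k => ?_) h4 h1
  · calc Phi b + Aser b / 2 * (a - b) = Phi b + (a - b) / 2 * Aser b := by ring
      _ ≤ Phi a := this
  · have hk : (0 : ℝ) ≤ (k : ℝ) := Nat.cast_nonneg k
    have ht := pow_tangent ha hb k
    have hpos : (0 : ℝ) < (2 * k + 1) * (2 * k + 2) := by positivity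
    have e : b ^ (k + 1) / ((2 * k + 1) * (2 * k + 2)) + (a - b) / 2 * (b ^ k / (2 * k + 1)) =
        (b ^ (k + 1) + (k + 1) * b ^ k * (a - b)) / ((2 * k + 1) * (2 * k + 2)) := by
      field_simp
    rw [e]
    apply div_le_div_of_nonneg_right _ hpos.le
    linarith

/-- Stronger Bregman bound for `Φ`. -/
theorem Phi_breg {a b : ℝ} (ha : 0 ≤ a) (ha1 : a < 1) (hb : 0 ≤ b) (hb1 : b < 1) :
    (1 / 6) * ((1 - a) * (Real.log (1 - a) - Real.log (1 - b)) + (a - b)) ≤
      Phi a - Phi b - Aser b / 2 * (a - b) := by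
  have h1 := hasSum_Phi ha ha1
  have h2 := hasSum_Phi hb hb1
  have h3 := (hasSum_A hb hb1).mul_left ((a - b) / 2)
  have hL := (h1.sub h2).sub h3
  -- the logarithmic series
  have l1 : HasSum (fun n : ℕ => a ^ (n + 1) / (n + 1)) (-Real.log (1 - a)) :=
    Real.hasSum_pow_div_log_of_abs_lt_one (by rw [abs_of_nonneg ha]; exact ha1)
  have l2 : HasSum (fun n : ℕ => b ^ (n + 1) / (n + 1)) (-Real.log (1 - b)) :=
    Real.hasSum_pow_div_log_of_abs_lt_one (by rw [abs_of_nonneg hb]; exact hb1)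
  -- remove the first term of the left series
  have hL' := (hasSum_nat_add_iff' (f := fun k : ℕ => a ^ (k + 1) / ((2 * (k : ℝ) + 1) * (2 * k + 2)) -
      b ^ (k + 1) / ((2 * (k : ℝ) + 1) * (2 * k + 2)) - (a - b) / 2 * (b ^ k / (2 * (k : ℝ) + 1))) 1).mpr hL
  have lam : ∀ x : ℝ, 0 ≤ x → x < 1 →
      HasSum (fun k : ℕ => x ^ (k + 2) / ((k + 1) * (k + 2))) ((1 - x) * Real.log (1 - x) + x) := by
    intro x hx0 hx1
    have l : HasSum (fun n : ℕ => x ^ (n + 1) / (n + 1)) (-Real.log (1 - x)) :=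
      Real.hasSum_pow_div_log_of_abs_lt_one (by rw [abs_of_nonneg hx0]; exact hx1)
    have l' := (hasSum_nat_add_iff' (f := fun n : ℕ => x ^ (n + 1) / ((n : ℝ) + 1)) 1).mpr l
    have l'' := (l.mul_left x).sub l'
    have e : (1 - x) * Real.log (1 - x) + x =
        x * -Real.log (1 - x) - (-Real.log (1 - x) - ∑ i ∈ range 1, x ^ (i + 1) / ((i : ℝ) + 1)) := by
      simp; ring
    rw [e]
    refine hs_congr (fun k => ?_) l''
    push_cast
    have hk : (0 : ℝ) ≤ (k : ℝ) := Nat.cast_nonneg k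
    field_simp
    ring
  have hR := ((lam a ha ha1).sub (lam b hb hb1)).sub (l2.mul_left (a - b))
  have hR6 := hR.mul_left (1 / 6 : ℝ)
  have hfin := hasSum_le (fun k => ?_) hR6 hL'
  · have e1 : (1 / 6 : ℝ) * ((1 - a) * Real.log (1 - a) + a - ((1 - b) * Real.log (1 - b) + b) -
        (a - b) * -Real.log (1 - b)) =
        (1 / 6) * ((1 - a) * (Real.log (1 - a) - Real.log (1 - b)) + (a - b)) := by ring
    rw [e1] at hfin
    refine hfin.trans (le_of_eq ?_)
    simp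
    ring
  · have hk : (0 : ℝ) ≤ (k : ℝ) := Nat.cast_nonneg k
    have ht := pow_tangent ha hb (k + 1)
    push_cast at ht ⊢
    have e1 : (1 / 6 : ℝ) * (a ^ (k + 2) / ((k + 1) * (k + 2)) - b ^ (k + 2) / ((k + 1) * (k + 2)) -
        (a - b) * (b ^ (k + 1) / (k + 1))) =
        (a ^ (k + 1 + 1) - b ^ (k + 1 + 1) - (k + 1 + 1) * b ^ (k + 1) * (a - b)) *
          (1 / (6 * ((k + 1) * (k + 2)))) := by
      field_simp
      ring
    have e2 : a ^ (k + 1 + 1) / ((2 * ((k : ℝ) + 1) + 1) * (2 * (k + 1) + 2)) -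
        b ^ (k + 1 + 1) / ((2 * ((k : ℝ) + 1) + 1) * (2 * (k + 1) + 2)) -
        (a - b) / 2 * (b ^ (k + 1) / (2 * (k + 1) + 1)) =
        (a ^ (k + 1 + 1) - b ^ (k + 1 + 1) - (k + 1 + 1) * b ^ (k + 1) * (a - b)) *
          (1 / ((2 * ((k : ℝ) + 1) + 1) * (2 * (k + 1) + 2))) := by
      field_simp
    rw [e1, e2]
    apply mul_le_mul_of_nonneg_left _ (by linarith)
    apply one_div_le_one_div_of_le (by positivity)
    nlinarith

end Pool.Agent.H767R5.UT
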