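import Mathlib
import Pool.Agent.H767R5.UT.Ser

/-!
MP_bbc525_pr (helper767): entropy bound for graphons.
-/

set_option autoImplicit false

namespace Pool.Agent.H767R5.UT

open MeasureTheory Filter Topology Set

/-- `H w = w log w + (1 - w) log (1 - w)`. -/
noncomputable def Hf (w : ℝ) : ℝ := w * Real.log w + (1 - w) * Real.log (1 - w)

theorem continuous_Hf : Continuous Hf := by
  unfold Hf
  exact Real.continuous_mul_log.add
    (Real.continuous_mul_log.comp (continuous_const.sub continuous_id))

theorem Hf_eq_phi {w : ℝ} (h0 : 0 < w) (h1 : w < 1) : Hf w = phi (2 * w - 1) - Real.log 2 := by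
  unfold Hf phi
  have e1 : 1 + (2 * w - 1) = 2 * w := by ring
  have e2 : 1 - (2 * w - 1) = 2 * (1 - w) := by ring
  rw [e1, e2, Real.log_mul (by norm_num) h0.ne', Real.log_mul (by norm_num) (by linarith)]
  ring

theorem Hf_binEntropy (w : ℝ) : Hf w = - Real.binEntropy w := by
  unfold Hf Real.binEntropy
  rw [Real.log_inv, Real.log_inv]; ring

/-- `a log (a / b) ≥ a - b`. -/
theorem log_ineq {a b : ℝ} (ha : 0 < a) (hb : 0 < b) : a - b ≤ a * (Real.log a - Real.log b) := by
  have h := Real.log_le_sub_one_of_pos (div_pos hb ha)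
  rw [Real.log_div hb.ne' ha.ne'] at h
  have h2 : a * (Real.log b - Real.log a) ≤ a * (b / a - 1) := mul_le_mul_of_nonneg_left h ha.le
  have h3 : a * (b / a - 1) = b - a := by field_simp
  rw [h3] at h2
  linarith

/-- The pointwise inequality behind the entropy bound. -/
theorem pointwise {w z s m : ℝ} (hw0 : 0 < w) (hw1 : w < 1) (hz0 : 0 < z) (hz1 : z < 1)
    (hs0 : 0 < s) (hs1 : s < 1) (hm0 : 0 < m) (hm1 : m < 1) :
    w * Real.log z + (1 - w) * Real.log (1 - z) + w * (Real.log s - Real.log m) +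
      (1 - w) * (Real.log (1 - s) - Real.log (1 - m)) + 1 - z * s / m
        - (1 - z) * (1 - s) / (1 - m) ≤ Hf w := by
  have h1 := log_ineq hw0 (b := z * s / m) (by positivity)
  have h2 := log_ineq (a := 1 - w) (b := (1 - z) * (1 - s) / (1 - m)) (by linarith)
    (div_pos (mul_pos (by linarith) (by linarith)) (by linarith))
  rw [Real.log_div (by positivity) hm0.ne', Real.log_mul hz0.ne' hs0.ne'] at h1
  rw [Real.log_div (mul_pos (by linarith) (by linarith)).ne' (by linarith),
    Real.log_mul (by linarith) (by linarith)] at h2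
  unfold Hf
  nlinarith

variable {Ω : Type*} [MeasurableSpace Ω] (μ : Measure Ω) [IsProbabilityMeasure μ]

theorem bdd_int {X : Type*} [MeasurableSpace X] (ν : Measure X) [IsFiniteMeasure ν] {f : X → ℝ}
    (hf : Measurable f) (C : ℝ) (h : ∀ x, |f x| ≤ C) : Integrable f ν :=
  Integrable.of_bound hf.aestronglyMeasurable C (Eventually.of_forall h)

theorem abs_log_le {δ x : ℝ} (hδ : 0 < δ) (h0 : δ ≤ x) (h1 : x ≤ 1) :
    |Real.log x| ≤ -Real.log δ := by
  have hx : 0 < x := lt_of_lt_of_le hδ h0
  have h2 : Real.log x ≤ 0 := Real.log_nonpos hx.le h1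
  rw [abs_of_nonpos h2]
  have := Real.log_le_log hδ h0
  linarith

/-- Entropy bound for interior graphons. -/
theorem entropy_interior (W : Ω → Ω → ℝ) (hm : Measurable (Function.uncurry W))
    (hsym : ∀ x y, W x y = W y x) (δ : ℝ) (hδ : 0 < δ) (hδ1 : δ < 1 / 2)
    (hlo : ∀ x y, δ ≤ W x y) (hhi : ∀ x y, W x y ≤ 1 - δ) :
    2 * ∫ x, Hf (∫ y, W x y ∂μ) ∂μ - Hf (∫ x, (∫ y, W x y ∂μ) ∂μ) ≤
      ∫ z, Hf (W z.1 z.2) ∂(μ.prod μ) := by
  set d : Ω → ℝ := fun x => ∫ y, W x y ∂μ with hd
  have hdm : Measurable d := (hm.stronglyMeasurable.integral_prod_right).measurable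
  have hWx : ∀ x, Measurable (W x) := fun x => hm.comp measurable_prodMk_left
  have hWint : ∀ x, Integrable (W x) μ := fun x => bdd_int μ (hWx x) 1 (fun y => by
    rw [abs_le]; constructor <;> linarith [hlo x y, hhi x y])
  have hdlo : ∀ x, δ ≤ d x := fun x => by
    have := integral_mono (μ := μ) (integrable_const δ) (hWint x) (fun y => hlo x y)
    simpa using this
  have hdhi : ∀ x, d x ≤ 1 - δ := fun x => by
    have := integral_mono (μ := μ) (hWint x) (integrable_const (1 - δ)) (fun y => hhi x y)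
    simpa using this
  have hdint : Integrable d μ := bdd_int μ hdm 1 (fun y => by
    rw [abs_le]; constructor <;> linarith [hdlo y, hdhi y])
  set m : ℝ := ∫ x, d x ∂μ with hmdef
  have hmlo : δ ≤ m := by
    have := integral_mono (μ := μ) (integrable_const δ) hdint (fun y => hdlo y)
    simpa using this
  have hmhi : m ≤ 1 - δ := by
    have := integral_mono (μ := μ) hdint (integrable_const (1 - δ)) (fun y => hdhi y)
    simpa using this
  have hm0 : 0 < m := by linarith
  have hm1 : m < 1 := by linarith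
  have hWm : Measurable (fun z : Ω × Ω => W z.1 z.2) := hm
  have hlogd : Measurable (fun x => Real.log (d x)) := Real.measurable_log.comp hdm
  have hlogd' : Measurable (fun x => Real.log (1 - d x)) :=
    Real.measurable_log.comp (measurable_const.sub hdm)
  set L : ℝ := -Real.log δ with hL
  have hL0 : 0 ≤ L := by
    have := Real.log_nonpos hδ.le (by linarith : δ ≤ 1)
    linarith
  have b1 : ∀ x, |Real.log (d x)| ≤ L := fun x => abs_log_le hδ (hdlo x) (by linarith [hdhi x])
  have b2 : ∀ x, |Real.log (1 - d x)| ≤ L := fun x =>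
    abs_log_le hδ (by linarith [hdhi x]) (by linarith [hdlo x])
  have c1 : |Real.log m| ≤ L := abs_log_le hδ hmlo (by linarith)
  have c2 : |Real.log (1 - m)| ≤ L := abs_log_le hδ (by linarith) (by linarith)
  have hW1 : ∀ x y, |W x y| ≤ 1 := fun x y => by
    rw [abs_le]; constructor <;> linarith [hlo x y, hhi x y]
  have hW2 : ∀ x y, |1 - W x y| ≤ 1 := fun x y => by
    rw [abs_le]; constructor <;> linarith [hlo x y, hhi x y]
  have mulb : ∀ a b : ℝ, |a| ≤ 1 → |b| ≤ L → |a * b| ≤ L := fun a b ha hb => by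
    rw [abs_mul]
    calc |a| * |b| ≤ 1 * |b| := mul_le_mul_of_nonneg_right ha (abs_nonneg b)
      _ ≤ L := by linarith
  -- the three pieces
  set F1 : Ω × Ω → ℝ := fun z => W z.1 z.2 * Real.log (d z.1) +
    (1 - W z.1 z.2) * Real.log (1 - d z.1) with hF1
  set F2 : Ω × Ω → ℝ := fun z => W z.1 z.2 * Real.log (d z.2) +
    (1 - W z.1 z.2) * Real.log (1 - d z.2) with hF2
  set F3 : Ω × Ω → ℝ := fun z => -(W z.1 z.2 * Real.log m + (1 - W z.1 z.2) * Real.log (1 - m))
    with hF3
  set F4 : Ω × Ω → ℝ := fun z => 1 - d z.1 * d z.2 / m - (1 - d z.1) * (1 - d z.2) / (1 - m)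
    with hF4
  have i1 : Integrable F1 (μ.prod μ) := by
    refine bdd_int _ ?_ (L + L) ?_
    · exact (hWm.mul (hlogd.comp measurable_fst)).add
        ((measurable_const.sub hWm).mul (hlogd'.comp measurable_fst))
    · intro z
      exact (abs_add_le _ _).trans (add_le_add (mulb _ _ (hW1 _ _) (b1 _))
        (mulb _ _ (hW2 _ _) (b2 _)))
  have i2 : Integrable F2 (μ.prod μ) := by
    refine bdd_int _ ?_ (L + L) ?_
    · exact (hWm.mul (hlogd.comp measurable_snd)).add
        ((measurable_const.sub hWm).mul (hlogd'.comp measurable_snd))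
    · intro z
      exact (abs_add_le _ _).trans (add_le_add (mulb _ _ (hW1 _ _) (b1 _))
        (mulb _ _ (hW2 _ _) (b2 _)))
  have i3 : Integrable F3 (μ.prod μ) := by
    refine bdd_int _ ?_ (L + L) ?_
    · exact ((hWm.mul measurable_const).add ((measurable_const.sub hWm).mul measurable_const)).neg
    · intro z
      rw [hF3, abs_neg]
      exact (abs_add_le _ _).trans (add_le_add (mulb _ _ (hW1 _ _) c1) (mulb _ _ (hW2 _ _) c2))
  have i41 : Integrable (fun z : Ω × Ω => d z.1 * d z.2) (μ.prod μ) := hdint.mul_prod hdint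
  have hdint' : Integrable (fun x => 1 - d x) μ := (integrable_const 1).sub hdint
  have i42 : Integrable (fun z : Ω × Ω => (1 - d z.1) * (1 - d z.2)) (μ.prod μ) :=
    hdint'.mul_prod hdint'
  have i4 : Integrable F4 (μ.prod μ) :=
    ((integrable_const 1).sub (i41.div_const m)).sub (i42.div_const (1 - m))
  have hHd : Integrable (fun x => Hf (d x)) μ := by
    refine bdd_int _ (continuous_Hf.measurable.comp hdm) (L + L) (fun x => ?_)
    unfold Hf
    refine (abs_add_le _ _).trans (add_le_add (mulb _ _ ?_ (b1 _)) (mulb _ _ ?_ (b2 _)))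
    · rw [abs_le]; constructor <;> linarith [hdlo x, hdhi x]
    · rw [abs_le]; constructor <;> linarith [hdlo x, hdhi x]
  have v1 : ∫ z, F1 z ∂(μ.prod μ) = ∫ x, Hf (d x) ∂μ := by
    rw [integral_prod _ i1]
    apply integral_congr_ae
    refine Eventually.of_forall (fun x => ?_)
    have hI1 : Integrable (fun y => W x y * Real.log (d x)) μ := (hWint x).mul_const _
    have hI2 : Integrable (fun y => (1 - W x y) * Real.log (1 - d x)) μ :=
      ((integrable_const 1).sub (hWint x)).mul_const _
    show ∫ y, (W x y * Real.log (d x) + (1 - W x y) * Real.log (1 - d x)) ∂μ = Hf (d x)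
    rw [integral_add hI1 hI2, integral_mul_const, integral_mul_const,
      integral_sub (integrable_const 1) (hWint x)]
    simp only [integral_const, probReal_univ, smul_eq_mul, mul_one]
    rfl
  have v2 : ∫ z, F2 z ∂(μ.prod μ) = ∫ x, Hf (d x) ∂μ := by
    rw [integral_prod_symm _ i2]
    apply integral_congr_ae
    refine Eventually.of_forall (fun x => ?_)
    have hI1 : Integrable (fun y => W y x * Real.log (d x)) μ := by
      refine ((hWint x).mul_const (Real.log (d x))).congr (Eventually.of_forall (fun y => ?_))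
      simp only [hsym x y]
    have hI0 : Integrable (fun y => W y x) μ := by
      refine (hWint x).congr (Eventually.of_forall (fun y => ?_))
      simp only [hsym x y]
    have hI2 : Integrable (fun y => (1 - W y x) * Real.log (1 - d x)) μ :=
      ((integrable_const 1).sub hI0).mul_const _
    have hdx : ∫ y, W y x ∂μ = d x := by
      rw [hd]; exact integral_congr_ae (Eventually.of_forall (fun y => hsym y x))
    show ∫ y, (W y x * Real.log (d x) + (1 - W y x) * Real.log (1 - d x)) ∂μ = Hf (d x)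
    rw [integral_add hI1 hI2, integral_mul_const, integral_mul_const,
      integral_sub (integrable_const 1) hI0, hdx]
    simp only [integral_const, probReal_univ, smul_eq_mul, mul_one]
    rfl
  have hWprod : Integrable (fun z : Ω × Ω => W z.1 z.2) (μ.prod μ) :=
    bdd_int _ hWm 1 (fun z => hW1 _ _)
  have vW : ∫ z, W z.1 z.2 ∂(μ.prod μ) = m := by
    rw [integral_prod _ hWprod]
  have v3 : ∫ z, F3 z ∂(μ.prod μ) = - Hf m := by
    have hA : Integrable (fun z : Ω × Ω => W z.1 z.2 * Real.log m) (μ.prod μ) :=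
      hWprod.mul_const _
    have hB0 : Integrable (fun z : Ω × Ω => 1 - W z.1 z.2) (μ.prod μ) :=
      (integrable_const 1).sub hWprod
    have hB : Integrable (fun z : Ω × Ω => (1 - W z.1 z.2) * Real.log (1 - m)) (μ.prod μ) :=
      hB0.mul_const _
    rw [hF3, integral_neg, integral_add hA hB, integral_mul_const, integral_mul_const,
      integral_sub (integrable_const 1) hWprod, vW]
    simp only [integral_const, probReal_univ, smul_eq_mul, mul_one]
    rfl
  have v4 : ∫ z, F4 z ∂(μ.prod μ) = 0 := by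
    have e1 : ∫ z : Ω × Ω, d z.1 * d z.2 ∂(μ.prod μ) = m * m := integral_prod_mul d d
    have e2 : ∫ z : Ω × Ω, (1 - d z.1) * (1 - d z.2) ∂(μ.prod μ) = (1 - m) * (1 - m) := by
      have := integral_prod_mul (μ := μ) (ν := μ) (fun x => 1 - d x) (fun x => 1 - d x)
      rw [this, integral_sub (integrable_const 1) hdint]
      simp only [integral_const, probReal_univ, smul_eq_mul, mul_one]
      rfl
    have j1 : Integrable (fun z : Ω × Ω => d z.1 * d z.2 / m) (μ.prod μ) := i41.div_const m
    have j2 : Integrable (fun z : Ω × Ω => (1 - d z.1) * (1 - d z.2) / (1 - m)) (μ.prod μ) :=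
      i42.div_const (1 - m)
    have j3 : Integrable (fun z : Ω × Ω => 1 - d z.1 * d z.2 / m) (μ.prod μ) :=
      (integrable_const 1).sub j1
    show ∫ z : Ω × Ω, (1 - d z.1 * d z.2 / m - (1 - d z.1) * (1 - d z.2) / (1 - m)) ∂(μ.prod μ) = 0
    rw [integral_sub j3 j2, integral_sub (integrable_const 1) j1, integral_div, integral_div,
      e1, e2]
    simp only [integral_const, probReal_univ, smul_eq_mul, mul_one]
    have : (1 - m) ≠ 0 := by linarith
    field_simp
    ring
  have hHW : Integrable (fun z : Ω × Ω => Hf (W z.1 z.2)) (μ.prod μ) := by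
    refine bdd_int _ (continuous_Hf.measurable.comp hWm) (L + L) (fun z => ?_)
    unfold Hf
    exact (abs_add_le _ _).trans (add_le_add
      (mulb _ _ (hW1 _ _) (abs_log_le hδ (hlo _ _) (by linarith [hhi z.1 z.2])))
      (mulb _ _ (hW2 _ _) (abs_log_le hδ (by linarith [hhi z.1 z.2]) (by linarith [hlo z.1 z.2]))))
  have hmono : ∫ z, (F1 z + F2 z + F3 z + F4 z) ∂(μ.prod μ) ≤ ∫ z, Hf (W z.1 z.2) ∂(μ.prod μ) := by
    refine integral_mono (((i1.add i2).add i3).add i4) hHW (fun z => ?_)
    have := pointwise (w := W z.1 z.2) (z := d z.1) (s := d z.2) (m := m)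
      (by linarith [hlo z.1 z.2]) (by linarith [hhi z.1 z.2]) (by linarith [hdlo z.1])
      (by linarith [hdhi z.1]) (by linarith [hdlo z.2]) (by linarith [hdhi z.2]) hm0 hm1
    simp only [hF1, hF2, hF3, hF4]
    linarith
  have hsum : ∫ z, (F1 z + F2 z + F3 z + F4 z) ∂(μ.prod μ) =
      ∫ x, Hf (d x) ∂μ + ∫ x, Hf (d x) ∂μ + (- Hf m) + 0 := by
    have k12 : Integrable (fun z => F1 z + F2 z) (μ.prod μ) := i1.add i2
    have k123 : Integrable (fun z => F1 z + F2 z + F3 z) (μ.prod μ) := k12.add i3
    rw [integral_add k123 i4, integral_add k12 i3, integral_add i1 i2, v1, v2, v3, v4]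
  linarith

/-- With the second moment: `∫∫ H(W) + log 2 ≥ 2 Φ(s) - H(m) - log 2`, interior graphons. -/
theorem entropy_Phi (W : Ω → Ω → ℝ) (hm : Measurable (Function.uncurry W))
    (hsym : ∀ x y, W x y = W y x) (δ : ℝ) (hδ : 0 < δ) (hδ1 : δ < 1 / 2)
    (hlo : ∀ x y, δ ≤ W x y) (hhi : ∀ x y, W x y ≤ 1 - δ) (s : ℝ)
    (hs : s = ∫ x, (2 * (∫ y, W x y ∂μ) - 1) ^ 2 ∂μ) :
    0 ≤ s ∧ s < 1 ∧
    2 * Phi s - 2 * Real.log 2 - Hf (∫ x, (∫ y, W x y ∂μ) ∂μ) ≤
      ∫ z, Hf (W z.1 z.2) ∂(μ.prod μ) := by
  have hent := entropy_interior μ W hm hsym δ hδ hδ1 hlo hhi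
  set d : Ω → ℝ := fun x => ∫ y, W x y ∂μ with hd
  have hdm : Measurable d := (hm.stronglyMeasurable.integral_prod_right).measurable
  have hWx : ∀ x, Measurable (W x) := fun x => hm.comp measurable_prodMk_left
  have hWint : ∀ x, Integrable (W x) μ := fun x => bdd_int μ (hWx x) 1 (fun y => by
    rw [abs_le]; constructor <;> linarith [hlo x y, hhi x y])
  have hdlo : ∀ x, δ ≤ d x := fun x => by
    have := integral_mono (μ := μ) (integrable_const δ) (hWint x) (fun y => hlo x y)
    simpa using this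
  have hdhi : ∀ x, d x ≤ 1 - δ := fun x => by
    have := integral_mono (μ := μ) (hWint x) (integrable_const (1 - δ)) (fun y => hhi x y)
    simpa using this
  have hXm : Measurable (fun x => (2 * d x - 1) ^ 2) :=
    ((measurable_const.mul hdm).sub measurable_const).pow_const 2
  have hX0 : ∀ x, 0 ≤ (2 * d x - 1) ^ 2 := fun x => sq_nonneg _
  have hX1 : ∀ x, (2 * d x - 1) ^ 2 ≤ (1 - 2 * δ) ^ 2 := fun x => by
    nlinarith [hdlo x, hdhi x]
  have hXint : Integrable (fun x => (2 * d x - 1) ^ 2) μ := bdd_int μ hXm 1 (fun x => by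
    rw [abs_of_nonneg (hX0 x)]
    nlinarith [hX1 x])
  have hs' : s = ∫ x, (2 * d x - 1) ^ 2 ∂μ := hs
  have hs0 : 0 ≤ s := by rw [hs']; exact integral_nonneg hX0
  have hs1 : s ≤ (1 - 2 * δ) ^ 2 := by
    rw [hs']
    have := integral_mono (μ := μ) hXint (integrable_const ((1 - 2 * δ) ^ 2)) hX1
    simpa using this
  have hs1' : s < 1 := by nlinarith
  refine ⟨hs0, hs1', ?_⟩
  have hHd : Integrable (fun x => Hf (d x)) μ := by
    obtain ⟨C, hC⟩ := (isCompact_Icc (a := (0 : ℝ)) (b := 1)).exists_bound_of_continuousOn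
      continuous_Hf.continuousOn
    refine bdd_int _ (continuous_Hf.measurable.comp hdm) C (fun x => ?_)
    exact hC _ ⟨by linarith [hdlo x], by linarith [hdhi x]⟩
  have hlow : Phi s - Real.log 2 ≤ ∫ x, Hf (d x) ∂μ := by
    have hi : Integrable (fun x => (Phi s - Real.log 2) +
        Aser s / 2 * ((2 * d x - 1) ^ 2 - s)) μ :=
      (integrable_const _).add ((hXint.sub (integrable_const s)).const_mul _)
    have hmono := integral_mono (μ := μ) hi hHd (fun x => by
      have h0 : 0 < d x := by linarith [hdlo x]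
      have h1 : d x < 1 := by linarith [hdhi x]
      have habs : |2 * d x - 1| < 1 := by rw [abs_lt]; constructor <;> linarith
      simp only []
      rw [Hf_eq_phi h0 h1, phi_eq_Phi habs]
      have hlt : (2 * d x - 1) ^ 2 < 1 := by nlinarith [hX1 x]
      have := Phi_tangent (hX0 x) hlt hs0 hs1'
      linarith)
    have hI : Integrable (fun x => Aser s / 2 * ((2 * d x - 1) ^ 2 - s)) μ :=
      (hXint.sub (integrable_const s)).const_mul _
    rw [integral_add (integrable_const _) hI, integral_const_mul,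
      integral_sub hXint (integrable_const s), ← hs'] at hmono
    simpa using hmono
  have e : ∫ x, (∫ y, W x y ∂μ) ∂μ = ∫ x, d x ∂μ := rfl
  linarith [hent, hlow]

end Pool.Agent.H767R5.UT
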