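import Mathlib
import Pool.Agent.H767R5.UT.Ent

/-!
MP_bbc525_pr (helper767): the final scalar inequality.
-/

set_option autoImplicit false

namespace Pool.Agent.H767R5.UT

open Filter Topology Set

/-- `D(m - q² ‖ q - q²)`. -/
noncomputable def Dq (q m : ℝ) : ℝ :=
  (m - q ^ 2) * (Real.log (m - q ^ 2) - Real.log (q - q ^ 2)) + (q - m)

/-- `I_q(m) ≤ D(m - q² ‖ q - q²)` for `q² < m ≤ q`. -/
theorem Iq_le_Dq {q m : ℝ} (hq0 : 0 < q) (hq1 : q < 1) (hm : q ^ 2 < m) (hmq : m ≤ q) :
    m * (Real.log m - Real.log q) + (1 - m) * (Real.log (1 - m) - Real.log (1 - q)) ≤ Dq q m := by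
  set f : ℝ → ℝ := fun t => (t - q ^ 2) * (Real.log (t - q ^ 2) - Real.log (q - q ^ 2)) + (q - t) -
    (t * (Real.log t - Real.log q) + (1 - t) * (Real.log (1 - t) - Real.log (1 - q))) with hf
  have hder : ∀ t, q ^ 2 < t → t < 1 → HasDerivAt f
      ((Real.log (t - q ^ 2) - Real.log (q - q ^ 2)) - (Real.log t - Real.log q) +
        (Real.log (1 - t) - Real.log (1 - q))) t := by
    intro t ht0 ht1
    have hq2 : 0 < q ^ 2 := by positivity
    have ht : 0 < t := by linarith
    have h1 : HasDerivAt (fun t : ℝ => t - q ^ 2) 1 t := (hasDerivAt_id t).sub_const _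
    have h2 : HasDerivAt (fun t : ℝ => Real.log (t - q ^ 2) - Real.log (q - q ^ 2))
        (1 / (t - q ^ 2)) t := (h1.log (by linarith)).sub_const _
    have h3 := h1.mul h2
    have h4 : HasDerivAt (fun t : ℝ => q - t) (-1) t := (hasDerivAt_id t).const_sub q
    have h5 : HasDerivAt (fun t : ℝ => Real.log t - Real.log q) (1 / t) t :=
      ((hasDerivAt_id t).log ht.ne').sub_const _
    have h6 := (hasDerivAt_id t).mul h5
    have h7 : HasDerivAt (fun t : ℝ => 1 - t) (-1) t := (hasDerivAt_id t).const_sub 1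
    have h8 : HasDerivAt (fun t : ℝ => Real.log (1 - t) - Real.log (1 - q)) (-1 / (1 - t)) t :=
      (h7.log (by linarith)).sub_const _
    have h9 := h7.mul h8
    have h10 := (h3.add h4).sub (h6.add h9)
    have e1 : t - q ^ 2 ≠ 0 := by linarith
    have e2 : 1 - t ≠ 0 := by linarith
    have e3 : t ≠ 0 := ht.ne'
    refine h10.congr_deriv ?_
    have a1 : (t - q ^ 2) * (1 / (t - q ^ 2)) = 1 := by field_simp
    have a2 : t * (1 / t) = 1 := by field_simp
    have a3 : (1 - t) * (-1 / (1 - t)) = -1 := by field_simp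
    simp only [id, a1, a2, a3]
    ring
  have hq2q : q ^ 2 < q := by nlinarith
  have hanti : AntitoneOn f (Icc m q) := by
    apply antitoneOn_of_deriv_nonpos (convex_Icc m q)
    · intro t ht
      exact (hder t (by linarith [ht.1]) (by linarith [ht.2])).continuousAt.continuousWithinAt
    · intro t ht
      rw [interior_Icc] at ht
      exact (hder t (by linarith [ht.1]) (by linarith [ht.2])).differentiableAt.differentiableWithinAt
    · intro t ht
      rw [interior_Icc] at ht
      rw [(hder t (by linarith [ht.1]) (by linarith [ht.2])).deriv]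
      have ht0 : q ^ 2 < t := by linarith [ht.1]
      have ht1 : t < q := ht.2
      have ht00 : 0 < t := by nlinarith
      have hprod : (t - q ^ 2) * q * (1 - t) ≤ (q - q ^ 2) * t * (1 - q) := by
        nlinarith [mul_nonneg hq0.le (sq_nonneg (t - q))]
      have hl := Real.log_le_log (mul_pos (mul_pos (by linarith) hq0) (by linarith)) hprod
      rw [Real.log_mul (mul_pos (by linarith) hq0).ne' (by linarith),
        Real.log_mul (by linarith) hq0.ne',
        Real.log_mul (mul_pos (by linarith) ht00).ne' (by linarith),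
        Real.log_mul (by linarith) ht00.ne'] at hl
      linarith
  have h := hanti (left_mem_Icc.mpr hmq) (right_mem_Icc.mpr hmq) hmq
  have hfq : f q = 0 := by simp only [hf]; ring
  rw [hfq] at h
  simp only [hf] at h
  unfold Dq
  linarith

theorem Dq_pos {q m : ℝ} (hq0 : 0 < q) (hq1 : q < 1) (hm : q ^ 2 ≤ m) (hmq : m < q) :
    0 < Dq q m := by
  unfold Dq
  rcases hm.eq_or_lt with h | h
  · rw [← h]; simp; nlinarith
  · have hv : 0 < m - q ^ 2 := by linarith
    have hv0 : 0 < q - q ^ 2 := by linarith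
    have hne : (q - q ^ 2) / (m - q ^ 2) ≠ 1 := by
      rw [Ne, div_eq_one_iff_eq hv.ne']; intro h; linarith
    have hl := Real.log_lt_sub_one_of_pos (div_pos hv0 hv) hne
    rw [Real.log_div hv0.ne' hv.ne'] at hl
    have h2 : (m - q ^ 2) * (Real.log (q - q ^ 2) - Real.log (m - q ^ 2)) <
        (m - q ^ 2) * ((q - q ^ 2) / (m - q ^ 2) - 1) := mul_lt_mul_of_pos_left hl hv
    have h3 : (m - q ^ 2) * ((q - q ^ 2) / (m - q ^ 2) - 1) = q - m := by
      field_simp; ring
    rw [h3] at h2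
    linarith

theorem Phi_eq_Hf {s : ℝ} (h0 : 0 ≤ s) (h1 : s < 1) :
    Phi s = Hf ((1 + Real.sqrt s) / 2) + Real.log 2 := by
  have hs : Real.sqrt s < 1 := by
    rw [Real.sqrt_lt' one_pos]; simpa using h1
  have hs0 := Real.sqrt_nonneg s
  have habs : |Real.sqrt s| < 1 := by rw [abs_of_nonneg hs0]; exact hs
  have h2 := phi_eq_Phi habs
  rw [Real.sq_sqrt h0] at h2
  rw [Hf_eq_phi (by linarith) (by linarith), ← h2]
  ring_nf

/-- logit of `q` in terms of `A`. -/
theorem logit_eq {q : ℝ} (hq0 : 0 < q) (hq1 : q < 1) :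
    Real.log q - Real.log (1 - q) = 2 * (2 * q - 1) * Aser ((2 * q - 1) ^ 2) := by
  have habs : |2 * q - 1| < 1 := by rw [abs_lt]; constructor <;> linarith
  rw [← A_pos_log habs]
  have e1 : 1 + (2 * q - 1) = 2 * q := by ring
  have e2 : 1 - (2 * q - 1) = 2 * (1 - q) := by ring
  rw [e1, e2, Real.log_mul (by norm_num) hq0.ne', Real.log_mul (by norm_num) (by linarith)]
  ring

/-- The final inequality, `q² < m ≤ q`. -/
theorem final_open {q m h : ℝ} (hq0 : 0 < q) (hq1 : q < 1) (hm : q ^ 2 < m) (hmq : m ≤ q)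
    (hh : -((2 + 4 * q) * Aser ((2 * q - 1) ^ 2)) ≤ h) :
    Dq q m / 3 ≤ 2 * Hf ((1 + Real.sqrt (4 * q ^ 2 - 4 * m + 1)) / 2) - Hf m - Hf q +
      (q - m) * h := by
  set s : ℝ := 4 * q ^ 2 - 4 * m + 1 with hs
  set A : ℝ := Aser ((2 * q - 1) ^ 2) with hA
  have hs0 : 0 ≤ s := by nlinarith [sq_nonneg (2 * q - 1)]
  have hs1 : s < 1 := by linarith
  have hb0 : (0 : ℝ) ≤ (2 * q - 1) ^ 2 := sq_nonneg _
  have hb1 : (2 * q - 1) ^ 2 < 1 := by nlinarith
  have h1 := Phi_breg hs0 hs1 hb0 hb1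
  have e1 : 1 - s = 4 * (m - q ^ 2) := by rw [hs]; ring
  have e2 : 1 - (2 * q - 1) ^ 2 = 4 * (q - q ^ 2) := by ring
  have e3 : s - (2 * q - 1) ^ 2 = 4 * (q - m) := by rw [hs]; ring
  rw [e1, e2, e3, Real.log_mul (by norm_num) (by linarith),
    Real.log_mul (by norm_num) (by nlinarith)] at h1
  have h2 := Phi_eq_Hf hs0 hs1
  have habs : |2 * q - 1| < 1 := by rw [abs_lt]; constructor <;> linarith
  have h3 := phi_eq_Phi habs
  have h4 := Hf_eq_phi hq0 hq1
  have h5 := Iq_le_Dq hq0 hq1 hm hmq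
  have h6 := logit_eq hq0 hq1
  have hm0 : 0 < m := by nlinarith
  have h7 : Hf m - Hf q = (m * (Real.log m - Real.log q) +
      (1 - m) * (Real.log (1 - m) - Real.log (1 - q))) +
      (m - q) * (Real.log q - Real.log (1 - q)) := by
    unfold Hf; ring
  have h8 : 0 ≤ (q - m) * ((2 + 4 * q) * A + h) :=
    mul_nonneg (by linarith) (by linarith)
  rw [h6] at h7
  unfold Dq at *
  nlinarith

/-- The final inequality, `q² ≤ m ≤ q`. -/
theorem final_closed {q m h : ℝ} (hq0 : 0 < q) (hq1 : q < 1) (hm : q ^ 2 ≤ m) (hmq : m ≤ q)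
    (hh : -((2 + 4 * q) * Aser ((2 * q - 1) ^ 2)) ≤ h) :
    Dq q m / 3 ≤ 2 * Hf ((1 + Real.sqrt (4 * q ^ 2 - 4 * m + 1)) / 2) - Hf m - Hf q +
      (q - m) * h := by
  rcases hm.eq_or_lt with h0 | h0
  · subst h0
    set g : ℝ → ℝ := fun m => 2 * Hf ((1 + Real.sqrt (4 * q ^ 2 - 4 * m + 1)) / 2) - Hf m - Hf q +
      (q - m) * h - ((m - q ^ 2) * Real.log (m - q ^ 2) - (m - q ^ 2) * Real.log (q - q ^ 2) +
        (q - m)) / 3 with hg
    have hcont : Continuous g := by
      have c1 : Continuous (fun m : ℝ => (m - q ^ 2) * Real.log (m - q ^ 2)) :=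
        Real.continuous_mul_log.comp (continuous_id.sub continuous_const)
      have c2 : Continuous (fun m : ℝ => Hf ((1 + Real.sqrt (4 * q ^ 2 - 4 * m + 1)) / 2)) := by
        refine continuous_Hf.comp ?_
        fun_prop
      have c3 := continuous_Hf
      simp only [hg]
      fun_prop
    have hq2q : q ^ 2 < q := by nlinarith
    have hseq : Tendsto (fun n : ℕ => q ^ 2 + (q - q ^ 2) * (1 / ((n : ℝ) + 1))) atTop
        (𝓝 (q ^ 2 + (q - q ^ 2) * 0)) :=
      (tendsto_one_div_add_atTop_nhds_zero_nat.const_mul _).const_add _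
    rw [mul_zero, add_zero] at hseq
    have hlim := (hcont.tendsto (q ^ 2)).comp hseq
    have hnn : 0 ≤ g (q ^ 2) := by
      refine ge_of_tendsto' hlim (fun n => ?_)
      have hn : (0 : ℝ) < (n : ℝ) + 1 := by positivity
      have hn1 : 1 / ((n : ℝ) + 1) ≤ 1 := by
        rw [div_le_one hn]; linarith [Nat.cast_nonneg (α := ℝ) n]
      have hn0 : 0 < 1 / ((n : ℝ) + 1) := by positivity
      have := final_open (m := q ^ 2 + (q - q ^ 2) * (1 / ((n : ℝ) + 1))) hq0 hq1
        (by nlinarith) (by nlinarith) hh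
      simp only [Function.comp, hg]
      unfold Dq at this
      linarith
    simp only [hg] at hnn
    unfold Dq
    linarith
  · exact final_open hq0 hq1 h0 hmq hh

end Pool.Agent.H767R5.UT
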