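import Mathlib
import Pool.Agent.H767R5.UT.Fi

/-!
MP_bbc525_pr (helper767): the entropy inequality for all graphons, and the sufficiency half.
-/

set_option autoImplicit false

namespace Pool.Agent.H767R5.UT

open MeasureTheory Filter Topology Set

theorem Hf_half : Hf (1 / 2) = - Real.log 2 := by
  unfold Hf
  have : (1 : ℝ) - 1 / 2 = 1 / 2 := by norm_num
  rw [this, one_div, Real.log_inv]; ring

theorem Hf_ge (w : ℝ) : - Real.log 2 ≤ Hf w := by
  rw [Hf_binEntropy]
  have := Real.binEntropy_le_log_two (p := w)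
  linarith

theorem Hf_mix {w t : ℝ} (h0 : 0 ≤ w) (h1 : w ≤ 1) (ht0 : 0 ≤ t) (ht1 : t ≤ 1) :
    Hf ((1 - t) * w + t / 2) ≤ Hf w := by
  have hc := Real.strictConcave_binEntropy.concaveOn.2 (x := w) ⟨h0, h1⟩ (y := 1 / 2)
    (by constructor <;> norm_num) (by linarith : (0 : ℝ) ≤ 1 - t) ht0 (by ring)
  simp only [smul_eq_mul] at hc
  have e : (1 - t) * w + t * (1 / 2) = (1 - t) * w + t / 2 := by ring
  rw [e] at hc
  have h2 := Hf_ge w
  have h3 : Real.binEntropy (1 / 2) = Real.log 2 := by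
    have := Hf_half
    rw [Hf_binEntropy] at this
    linarith
  rw [h3] at hc
  rw [Hf_binEntropy, Hf_binEntropy w]
  rw [Hf_binEntropy] at h2
  nlinarith

/-- `H ((1+x)/2)` is monotone on `[0,1]`. -/
theorem Hf_mono {x y : ℝ} (h0 : 0 ≤ x) (hxy : x ≤ y) (h1 : y ≤ 1) :
    Hf ((1 + x) / 2) ≤ Hf ((1 + y) / 2) := by
  rw [Hf_binEntropy, Hf_binEntropy]
  have := Real.binEntropy_strictAntiOn.antitoneOn (a := (1 + x) / 2) (b := (1 + y) / 2)
    ⟨by norm_num; linarith, by linarith⟩ ⟨by norm_num; linarith, by linarith⟩ (by linarith)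
  linarith

variable {Ω : Type*} [MeasurableSpace Ω] (μ : Measure Ω) [IsProbabilityMeasure μ]

/-- The entropy inequality for all graphons. -/
theorem entropy_general (W : Ω → Ω → ℝ) (hm : Measurable (Function.uncurry W))
    (hsym : ∀ x y, W x y = W y x) (hlo : ∀ x y, 0 ≤ W x y) (hhi : ∀ x y, W x y ≤ 1) :
    2 * Hf ((1 + Real.sqrt (∫ x, (2 * (∫ y, W x y ∂μ) - 1) ^ 2 ∂μ)) / 2) -
      Hf (∫ x, (∫ y, W x y ∂μ) ∂μ) ≤ ∫ z, Hf (W z.1 z.2) ∂(μ.prod μ) := by
  set d : Ω → ℝ := fun x => ∫ y, W x y ∂μ with hd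
  have hdm : Measurable d := (hm.stronglyMeasurable.integral_prod_right).measurable
  have hWx : ∀ x, Measurable (W x) := fun x => hm.comp measurable_prodMk_left
  have hWint : ∀ x, Integrable (W x) μ := fun x => bdd_int μ (hWx x) 1 (fun y => by
    rw [abs_le]; constructor <;> linarith [hlo x y, hhi x y])
  have hdlo : ∀ x, 0 ≤ d x := fun x => integral_nonneg (hlo x)
  have hdhi : ∀ x, d x ≤ 1 := fun x => by
    have := integral_mono (μ := μ) (hWint x) (integrable_const (1 : ℝ)) (fun y => hhi x y)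
    simpa using this
  have hdint : Integrable d μ := bdd_int μ hdm 1 (fun y => by
    rw [abs_le]; constructor <;> linarith [hdlo y, hdhi y])
  set s : ℝ := ∫ x, (2 * d x - 1) ^ 2 ∂μ with hs
  have hs0 : 0 ≤ s := integral_nonneg (fun x => sq_nonneg _)
  set m : ℝ := ∫ x, d x ∂μ with hmdef
  have hWm : Measurable (fun z : Ω × Ω => W z.1 z.2) := hm
  have key : ∀ t : ℝ, 0 < t → t < 1 →
      2 * Hf ((1 + (1 - t) * Real.sqrt s) / 2) - Hf ((1 - t) * m + t / 2) ≤
        ∫ z, Hf (W z.1 z.2) ∂(μ.prod μ) := by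
    intro t ht0 ht1
    set V : Ω → Ω → ℝ := fun x y => (1 - t) * W x y + t / 2 with hV
    have hVm : Measurable (Function.uncurry V) := (hWm.const_mul _).add_const _
    have hVd : ∀ x, ∫ y, V x y ∂μ = (1 - t) * d x + t / 2 := fun x => by
      have hi : Integrable (fun y => (1 - t) * W x y) μ := (hWint x).const_mul _
      have hc : ∫ _y : Ω, t / 2 ∂μ = t / 2 := by simp
      show ∫ y, ((1 - t) * W x y + t / 2) ∂μ = (1 - t) * (∫ y, W x y ∂μ) + t / 2
      rw [integral_add hi (integrable_const _), integral_const_mul, hc]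
    have hphi := entropy_Phi μ V hVm (fun x y => by simp only [hV, hsym x y]) (t / 4)
      (by linarith) (by linarith)
      (fun x y => by simp only [hV]; nlinarith [hlo x y])
      (fun x y => by simp only [hV]; nlinarith [hhi x y]) ((1 - t) ^ 2 * s) (by
        simp only [hVd]
        rw [hs, ← integral_const_mul]
        apply integral_congr_ae
        refine Eventually.of_forall (fun x => ?_)
        simp only []
        ring)
    obtain ⟨hp0, hp1, hp2⟩ := hphi
    have hVd2 : ∫ x, (∫ y, V x y ∂μ) ∂μ = (1 - t) * m + t / 2 := by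
      simp only [hVd]
      have hi : Integrable (fun x => (1 - t) * d x) μ := hdint.const_mul _
      have hc : ∫ _y : Ω, t / 2 ∂μ = t / 2 := by simp
      rw [integral_add hi (integrable_const _), integral_const_mul, hc]
    rw [hVd2, Phi_eq_Hf hp0 hp1, Real.sqrt_mul (sq_nonneg _), Real.sqrt_sq (by linarith)] at hp2
    obtain ⟨C, hC⟩ := (isCompact_Icc (a := (0 : ℝ)) (b := 1)).exists_bound_of_continuousOn
      continuous_Hf.continuousOn
    have hmix : ∫ z, Hf (V z.1 z.2) ∂(μ.prod μ) ≤ ∫ z, Hf (W z.1 z.2) ∂(μ.prod μ) := by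
      apply integral_mono
      · refine bdd_int _ (continuous_Hf.measurable.comp hVm) C (fun z => hC _ ⟨?_, ?_⟩)
        · show 0 ≤ (1 - t) * W z.1 z.2 + t / 2
          nlinarith [hlo z.1 z.2]
        · show (1 - t) * W z.1 z.2 + t / 2 ≤ 1
          nlinarith [hhi z.1 z.2]
      · exact bdd_int _ (continuous_Hf.measurable.comp hWm) C
          (fun z => hC _ ⟨hlo _ _, hhi _ _⟩)
      · intro z
        exact Hf_mix (hlo _ _) (hhi _ _) ht0.le ht1.le
    linarith
  -- let `t → 0`
  have hcont : Continuous (fun t : ℝ =>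
      2 * Hf ((1 + (1 - t) * Real.sqrt s) / 2) - Hf ((1 - t) * m + t / 2)) := by
    have := continuous_Hf
    fun_prop
  have hseq : Tendsto (fun n : ℕ => (1 / ((n : ℝ) + 1 + 1))) atTop (𝓝 0) := by
    have := (tendsto_add_atTop_iff_nat 1).mpr
      (tendsto_one_div_add_atTop_nhds_zero_nat (𝕜 := ℝ))
    refine this.congr (fun n => ?_)
    push_cast; ring
  have hlim := (hcont.tendsto 0).comp hseq
  have := le_of_tendsto' hlim (fun n => by
    have hn : (0 : ℝ) < (n : ℝ) + 1 + 1 := by positivity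
    exact key (1 / ((n : ℝ) + 1 + 1)) (by positivity) (by
      rw [div_lt_one hn]; have := Nat.cast_nonneg (α := ℝ) n; linarith))
  simpa using this

end Pool.Agent.H767R5.UT
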