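import Mathlib
import Pool.Agent.H767R5.UT.Gi

/-!
MP_bbc525_pr (helper767): the sufficiency half.
-/

set_option autoImplicit false

namespace Pool.Agent.H767R5.UT

open MeasureTheory Filter Topology Set

/-- The relative entropy `I_p(x) = x log (x/p) + (1-x) log ((1-x)/(1-p))`. -/
noncomputable def Ip (p x : ℝ) : ℝ := x * Real.log (x / p) + (1 - x) * Real.log ((1 - x) / (1 - p))

theorem Ip_eq {p : ℝ} (hp0 : 0 < p) (hp1 : p < 1) (x : ℝ) :
    Ip p x = Hf x - x * Real.log p - (1 - x) * Real.log (1 - p) := by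
  unfold Ip Hf
  have h1 : x * Real.log (x / p) = x * Real.log x - x * Real.log p := by
    rcases eq_or_ne x 0 with h | h
    · simp [h]
    · rw [Real.log_div h hp0.ne']; ring
  have h2 : (1 - x) * Real.log ((1 - x) / (1 - p)) =
      (1 - x) * Real.log (1 - x) - (1 - x) * Real.log (1 - p) := by
    rcases eq_or_ne (1 - x) 0 with h | h
    · simp [h]
    · rw [Real.log_div h (by linarith)]; ring
  rw [h1, h2]; ring

theorem continuous_Ip {p : ℝ} (hp0 : 0 < p) (hp1 : p < 1) : Continuous (Ip p) := by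
  have : Ip p = fun x => Hf x - x * Real.log p - (1 - x) * Real.log (1 - p) :=
    funext (Ip_eq hp0 hp1)
  rw [this]
  have := continuous_Hf
  fun_prop

theorem Ip_klFun {p : ℝ} (hp0 : 0 < p) (hp1 : p < 1) (x : ℝ) :
    Ip p x = p * InformationTheory.klFun (x / p) +
      (1 - p) * InformationTheory.klFun ((1 - x) / (1 - p)) := by
  unfold Ip InformationTheory.klFun
  have : 1 - p ≠ 0 := by linarith
  field_simp
  ring

theorem Ip_nonneg {p x : ℝ} (hp0 : 0 < p) (hp1 : p < 1) (h0 : 0 ≤ x) (h1 : x ≤ 1) :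
    0 ≤ Ip p x := by
  rw [Ip_klFun hp0 hp1]
  have h2 := InformationTheory.klFun_nonneg (x := x / p) (by positivity)
  have h3 := InformationTheory.klFun_nonneg (x := (1 - x) / (1 - p))
    (div_nonneg (by linarith) (by linarith))
  have h4 : 0 < 1 - p := by linarith
  positivity

theorem Ip_eq_zero {p x : ℝ} (hp0 : 0 < p) (hp1 : p < 1) (h0 : 0 ≤ x) (h1 : x ≤ 1)
    (h : Ip p x = 0) : x = p := by
  rw [Ip_klFun hp0 hp1] at h
  have h2 := InformationTheory.klFun_nonneg (x := x / p) (by positivity)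
  have h3 := InformationTheory.klFun_nonneg (x := (1 - x) / (1 - p))
    (div_nonneg (by linarith) (by linarith))
  have h4 : 0 < 1 - p := by linarith
  have h5 : InformationTheory.klFun (x / p) = 0 := by
    by_contra hne
    have : 0 < InformationTheory.klFun (x / p) := lt_of_le_of_ne h2 (Ne.symm hne)
    have : 0 < p * InformationTheory.klFun (x / p) := by positivity
    have : 0 ≤ (1 - p) * InformationTheory.klFun ((1 - x) / (1 - p)) := by positivity
    linarith
  rw [InformationTheory.klFun_eq_zero_iff (by positivity)] at h5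
  rwa [div_eq_one_iff_eq hp0.ne'] at h5

/-- Expansion around `q`. -/
theorem Ip_expand {p q : ℝ} (hp0 : 0 < p) (hp1 : p < 1) (hq0 : 0 < q) (hq1 : q < 1) (x : ℝ) :
    Ip p x = Ip p q + (x - q) * ((Real.log q - Real.log (1 - q)) -
      (Real.log p - Real.log (1 - p))) + Ip q x := by
  rw [Ip_eq hp0 hp1, Ip_eq hp0 hp1, Ip_eq hq0 hq1]
  unfold Hf
  ring

variable {Ω : Type*} [MeasurableSpace Ω] (μ : Measure Ω) [IsProbabilityMeasure μ]

/-- Sufficiency of the condition and uniqueness of the minimizer. -/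
theorem suff (W : Ω → Ω → ℝ) (hm : Measurable (Function.uncurry W))
    (hsym : ∀ x y, W x y = W y x) (hlo : ∀ x y, 0 ≤ W x y) (hhi : ∀ x y, W x y ≤ 1)
    {p q : ℝ} (hp0 : 0 < p) (hpq : p ≤ q) (hq1 : q < 1)
    (hv : q ^ 2 ≤ ∫ x, (∫ y, W x y ∂μ) ^ 2 ∂μ)
    (hh : -((2 + 4 * q) * Aser ((2 * q - 1) ^ 2)) ≤ Real.log p - Real.log (1 - p)) :
    Ip p q ≤ ∫ z, Ip p (W z.1 z.2) ∂(μ.prod μ) ∧
      (∫ z, Ip p (W z.1 z.2) ∂(μ.prod μ) = Ip p q → ∀ᵐ z ∂(μ.prod μ), W z.1 z.2 = q) := by
  have hq0 : 0 < q := lt_of_lt_of_le hp0 hpq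
  have hp1 : p < 1 := lt_of_le_of_lt hpq hq1
  have hgen := entropy_general μ W hm hsym hlo hhi
  set d : Ω → ℝ := fun x => ∫ y, W x y ∂μ with hd
  have hdm : Measurable d := (hm.stronglyMeasurable.integral_prod_right).measurable
  have hWx : ∀ x, Measurable (W x) := fun x => hm.comp measurable_prodMk_left
  have hWint : ∀ x, Integrable (W x) μ := fun x => bdd_int μ (hWx x) 1 (fun y => by
    rw [abs_le]; constructor <;> linarith [hlo x y, hhi x y])
  have hdlo : ∀ x, 0 ≤ d x := fun x => integral_nonneg (hlo x)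
  have hdhi : ∀ x, d x ≤ 1 := fun x => by
    have := integral_mono (μ := μ) (hWint x) (integrable_const (1 : ℝ)) (fun y => hhi x y)
    simpa using this
  have hdint : Integrable d μ := bdd_int μ hdm 1 (fun y => by
    rw [abs_le]; constructor <;> linarith [hdlo y, hdhi y])
  have hd2int : Integrable (fun x => d x ^ 2) μ := bdd_int μ (hdm.pow_const 2) 1 (fun y => by
    rw [abs_of_nonneg (sq_nonneg _)]; nlinarith [hdlo y, hdhi y])
  set m : ℝ := ∫ x, d x ∂μ with hmdef
  set v : ℝ := ∫ x, d x ^ 2 ∂μ with hvdef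
  have hv' : q ^ 2 ≤ v := hv
  have hvm : v ≤ m := integral_mono hd2int hdint (fun x => by
    simp only []
    nlinarith [hdlo x, hdhi x])
  have hs : ∫ x, (2 * d x - 1) ^ 2 ∂μ = 4 * v - 4 * m + 1 := by
    have e : ∀ x, (2 * d x - 1) ^ 2 = (4 * d x ^ 2 - 4 * d x) + 1 := fun x => by ring
    have j1 : Integrable (fun x => 4 * d x ^ 2) μ := hd2int.const_mul 4
    have j2 : Integrable (fun x => 4 * d x) μ := hdint.const_mul 4
    have j3 : Integrable (fun x => 4 * d x ^ 2 - 4 * d x) μ := j1.sub j2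
    have hc : ∫ _x : Ω, (1 : ℝ) ∂μ = 1 := by simp
    simp only [e]
    rw [integral_add j3 (integrable_const _), integral_sub j1 j2, integral_const_mul,
      integral_const_mul, hc]
  rw [hs] at hgen
  have hWm : Measurable (fun z : Ω × Ω => W z.1 z.2) := hm
  have hWprod : Integrable (fun z : Ω × Ω => W z.1 z.2) (μ.prod μ) :=
    bdd_int _ hWm 1 (fun z => by rw [abs_le]; constructor <;> linarith [hlo z.1 z.2, hhi z.1 z.2])
  have vW : ∫ z, W z.1 z.2 ∂(μ.prod μ) = m := by
    rw [integral_prod _ hWprod]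
  have hIint : ∀ r : ℝ, 0 < r → r < 1 →
      Integrable (fun z : Ω × Ω => Ip r (W z.1 z.2)) (μ.prod μ) := by
    intro r hr0 hr1
    obtain ⟨C, hC⟩ := (isCompact_Icc (a := (0 : ℝ)) (b := 1)).exists_bound_of_continuousOn
      (continuous_Ip hr0 hr1).continuousOn
    exact bdd_int _ ((continuous_Ip hr0 hr1).measurable.comp hWm) C
      (fun z => hC _ ⟨hlo _ _, hhi _ _⟩)
  set lam : ℝ := (Real.log q - Real.log (1 - q)) - (Real.log p - Real.log (1 - p)) with hlam
  have hlam0 : 0 ≤ lam := by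
    have h1 := Real.log_le_log hp0 hpq
    have h2 := Real.log_le_log (by linarith : 0 < 1 - q) (by linarith : 1 - q ≤ 1 - p)
    simp only [hlam]; linarith
  have hexp : ∫ z, Ip p (W z.1 z.2) ∂(μ.prod μ) =
      Ip p q + (m - q) * lam + ∫ z, Ip q (W z.1 z.2) ∂(μ.prod μ) := by
    have j1 : Integrable (fun z : Ω × Ω => W z.1 z.2 - q) (μ.prod μ) :=
      hWprod.sub (integrable_const q)
    have j2 : Integrable (fun z : Ω × Ω => (W z.1 z.2 - q) * lam) (μ.prod μ) := j1.mul_const _
    have j3 : Integrable (fun z : Ω × Ω => Ip p q + (W z.1 z.2 - q) * lam) (μ.prod μ) :=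
      (integrable_const _).add j2
    have hc1 : ∫ _z : Ω × Ω, Ip p q ∂(μ.prod μ) = Ip p q := by simp
    have hc2 : ∫ _z : Ω × Ω, q ∂(μ.prod μ) = q := by simp
    have e : ∀ z : Ω × Ω, Ip p (W z.1 z.2) = (Ip p q + (W z.1 z.2 - q) * lam) +
        Ip q (W z.1 z.2) := fun z => Ip_expand hp0 hp1 hq0 hq1 _
    simp only [e]
    rw [integral_add j3 (hIint q hq0 hq1), integral_add (integrable_const _) j2,
      integral_mul_const, integral_sub hWprod (integrable_const q), vW, hc1, hc2]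
  have hIq0 : 0 ≤ ∫ z, Ip q (W z.1 z.2) ∂(μ.prod μ) :=
    integral_nonneg (fun z => Ip_nonneg hq0 hq1 (hlo _ _) (hhi _ _))
  rcases lt_or_ge m q with hmq | hmq
  · -- `m < q`: strict inequality
    have hm2 : q ^ 2 ≤ m := hv'.trans hvm
    have hfin := final_closed (h := Real.log p - Real.log (1 - p)) hq0 hq1 hm2 hmq.le hh
    have hD := Dq_pos hq0 hq1 hm2 hmq
    have hmono : Hf ((1 + Real.sqrt (4 * q ^ 2 - 4 * m + 1)) / 2) ≤
        Hf ((1 + Real.sqrt (4 * v - 4 * m + 1)) / 2) := by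
      apply Hf_mono (Real.sqrt_nonneg _)
      · exact Real.sqrt_le_sqrt (by linarith)
      · rw [Real.sqrt_le_one]; linarith
    have hHint : ∫ z, Hf (W z.1 z.2) ∂(μ.prod μ) =
        ∫ z, Ip p (W z.1 z.2) ∂(μ.prod μ) + m * Real.log p + (1 - m) * Real.log (1 - p) := by
      have e : ∀ z : Ω × Ω, Hf (W z.1 z.2) = Ip p (W z.1 z.2) + W z.1 z.2 * Real.log p +
          (1 - W z.1 z.2) * Real.log (1 - p) := fun z => by
        rw [Ip_eq hp0 hp1]; ring
      have j1 : Integrable (fun z : Ω × Ω => W z.1 z.2 * Real.log p) (μ.prod μ) :=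
        hWprod.mul_const _
      have j0 : Integrable (fun z : Ω × Ω => 1 - W z.1 z.2) (μ.prod μ) :=
        (integrable_const 1).sub hWprod
      have j2 : Integrable (fun z : Ω × Ω => (1 - W z.1 z.2) * Real.log (1 - p)) (μ.prod μ) :=
        j0.mul_const _
      have j3 : Integrable (fun z : Ω × Ω => Ip p (W z.1 z.2) + W z.1 z.2 * Real.log p)
        (μ.prod μ) := (hIint p hp0 hp1).add j1
      have hc1 : ∫ _z : Ω × Ω, (1 : ℝ) ∂(μ.prod μ) = 1 := by simp
      simp only [e]
      rw [integral_add j3 j2, integral_add (hIint p hp0 hp1) j1, integral_mul_const,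
        integral_mul_const, integral_sub (integrable_const _) hWprod, vW, hc1]
    rw [hHint] at hgen
    have hIpq := Ip_eq hp0 hp1 q
    have hstrict : Ip p q < ∫ z, Ip p (W z.1 z.2) ∂(μ.prod μ) := by
      rw [hIpq]
      nlinarith
    exact ⟨hstrict.le, fun h => absurd h hstrict.ne'⟩
  · -- `m ≥ q`
    have h1 : 0 ≤ (m - q) * lam := mul_nonneg (by linarith) hlam0
    refine ⟨by linarith, fun h => ?_⟩
    have h0 : ∫ z, Ip q (W z.1 z.2) ∂(μ.prod μ) = 0 := by linarith
    have hae := (integral_eq_zero_iff_of_nonneg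
      (fun z => Ip_nonneg hq0 hq1 (hlo _ _) (hhi _ _)) (hIint q hq0 hq1)).mp h0
    filter_upwards [hae] with z hz
    exact Ip_eq_zero hq0 hq1 (hlo _ _) (hhi _ _) hz

end Pool.Agent.H767R5.UT
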