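import Mathlib
import Pool.Agent.H767R5.UT.Suff

/-!
MP_bbc525_pr (helper767): the small pod perturbation (necessity half), scalar part.
-/

set_option autoImplicit false

namespace Pool.Agent.H767R5.UT

open Filter Topology Set

theorem pos_deriv {f : ℝ → ℝ} {f' : ℝ} (h : HasDerivAt f f' 0) (hpos : 0 < f') :
    ∀ᶠ e in 𝓝[>] (0 : ℝ), f 0 < f e := by
  have h1 := hasDerivAt_iff_tendsto_slope_zero.mp h
  have h2 : ∀ᶠ t in 𝓝[≠] (0 : ℝ), 0 < t⁻¹ • (f (0 + t) - f 0) := h1.eventually (lt_mem_nhds hpos)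
  have h3 : 𝓝[>] (0 : ℝ) ≤ 𝓝[≠] 0 := nhdsWithin_mono _ (fun x hx => ne_of_gt hx)
  filter_upwards [h3 h2, self_mem_nhdsWithin] with t ht ht0
  have ht0' : (0 : ℝ) < t := ht0
  rw [zero_add, smul_eq_mul] at ht
  have := mul_pos ht0' ht
  rw [← mul_assoc, mul_inv_cancel₀ ht0'.ne', one_mul] at this
  linarith

theorem hasDerivAt_Hf {q : ℝ} (hq0 : 0 < q) (hq1 : q < 1) :
    HasDerivAt Hf (Real.log q - Real.log (1 - q)) q := by
  have h1 := (hasDerivAt_id q).mul ((hasDerivAt_id q).log hq0.ne')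
  have h7 : HasDerivAt (fun t : ℝ => 1 - t) (-1) q := (hasDerivAt_id q).const_sub 1
  have h8 := h7.mul (h7.log (by linarith : (1 : ℝ) - q ≠ 0))
  refine (h1.add h8).congr_deriv ?_
  have a2 : q * (1 / q) = 1 := by field_simp
  have h1q : (1 : ℝ) - q ≠ 0 := by linarith
  have a3 : (1 - q) * (-1 / (1 - q)) = -1 := by field_simp
  simp only [id, a2, a3]
  ring

theorem hasDerivAt_Ip {p q : ℝ} (hp0 : 0 < p) (hp1 : p < 1) (hq0 : 0 < q) (hq1 : q < 1) :
    HasDerivAt (Ip p) ((Real.log q - Real.log (1 - q)) - (Real.log p - Real.log (1 - p))) q := by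
  have : Ip p = fun x => Hf x - x * Real.log p - (1 - x) * Real.log (1 - p) :=
    funext (Ip_eq hp0 hp1)
  rw [this]
  have h1 := hasDerivAt_Hf hq0 hq1
  have h2 : HasDerivAt (fun x : ℝ => x * Real.log p) (1 * Real.log p) q :=
    (hasDerivAt_id q).mul_const _
  have h3 : HasDerivAt (fun x : ℝ => (1 - x) * Real.log (1 - p)) ((-1) * Real.log (1 - p)) q :=
    ((hasDerivAt_id q).const_sub 1).mul_const _
  refine ((h1.sub h2).sub h3).congr_deriv ?_
  ring

/-- second moment of the degree of the pod graphon -/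
noncomputable def podV (u e r : ℝ) : ℝ := e * u ^ 2 + (1 - e) * (e * u + (1 - e) * r) ^ 2
/-- edge density of the pod graphon -/
noncomputable def podM (u e r : ℝ) : ℝ := e * u + (1 - e) * (e * u + (1 - e) * r)
/-- cost of the pod graphon -/
noncomputable def podC (p u e r : ℝ) : ℝ := (1 - (1 - e) ^ 2) * Ip p u + (1 - e) ^ 2 * Ip p r

/-- The small pod. -/
theorem pod_exists {p q u : ℝ} (a b : ℕ) (ha : 0 < a) (hp0 : 0 < p) (hp1 : p < 1)
    (hq0 : 0 < q) (hq1 : q < 1) (hu0 : 0 ≤ u) (hu1 : u ≤ 1)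
    (hlam : 0 < (Real.log q - Real.log (1 - q)) - (Real.log p - Real.log (1 - p)))
    (hU : Ip q u * (2 * (2 * a + b) * q) <
      ((Real.log q - Real.log (1 - q)) - (Real.log p - Real.log (1 - p))) * a * (u - q) ^ 2) :
    ∃ e r : ℝ, 0 < e ∧ e < 1 ∧ 0 ≤ r ∧ r ≤ 1 ∧
      q ^ (2 * a + b) ≤ podV u e r ^ a * podM u e r ^ b ∧ podC p u e r < Ip p q := by
  set lam := (Real.log q - Real.log (1 - q)) - (Real.log p - Real.log (1 - p)) with hlamdef
  have ha' : (0 : ℝ) < a := by exact_mod_cast ha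
  have hb' : (0 : ℝ) ≤ b := Nat.cast_nonneg b
  have hden : 0 < (2 * a + b) * q := by positivity
  -- the window for `κ`
  have hwin : 2 * (Ip p u - Ip p q) / lam <
      (a * ((u - q) * (u + 3 * q)) + b * (2 * q * (u - q))) / ((2 * a + b) * q) := by
    rw [div_lt_div_iff₀ hlam hden]
    have hexp := Ip_expand hp0 hp1 hq0 hq1 u
    rw [hexp]
    nlinarith
  obtain ⟨κ, hκ1, hκ2⟩ := exists_between hwin
  rw [div_lt_iff₀ hlam] at hκ1
  rw [lt_div_iff₀ hden] at hκ2
  have hr : HasDerivAt (fun e : ℝ => q - κ * e) (-κ) 0 := by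
    have := ((hasDerivAt_id (0 : ℝ)).const_mul κ).const_sub q
    simpa using this
  have hid := hasDerivAt_id (0 : ℝ)
  have h1e : HasDerivAt (fun e : ℝ => 1 - e) (-1) 0 := hid.const_sub 1
  have hin : HasDerivAt (fun e : ℝ => e * u + (1 - e) * (q - κ * e)) (u - q - κ) 0 := by
    have h1 : HasDerivAt (fun e : ℝ => e * u) (1 * u) 0 := hid.mul_const u
    refine (h1.add (h1e.mul hr)).congr_deriv ?_
    ring
  have hV : HasDerivAt (fun e : ℝ => podV u e (q - κ * e))
      (u ^ 2 - q ^ 2 + 2 * q * (u - q - κ)) 0 := by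
    have h1 : HasDerivAt (fun e : ℝ => e * u ^ 2) (1 * u ^ 2) 0 := hid.mul_const _
    refine (h1.add (h1e.mul (hin.pow 2))).congr_deriv ?_
    simp
    ring
  have hM : HasDerivAt (fun e : ℝ => podM u e (q - κ * e)) (2 * (u - q) - κ) 0 := by
    have h1 : HasDerivAt (fun e : ℝ => e * u) (1 * u) 0 := hid.mul_const u
    refine (h1.add (h1e.mul hin)).congr_deriv ?_
    simp
    ring
  have hV0 : podV u 0 (q - κ * 0) = q ^ 2 := by unfold podV; ring
  have hM0 : podM u 0 (q - κ * 0) = q := by unfold podM; ring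
  have hT := (hV.pow a).mul (hM.pow b)
  have hC : HasDerivAt (fun e : ℝ => podC p u e (q - κ * e))
      (2 * Ip p u - 2 * Ip p q - κ * lam) 0 := by
    have h0 : HasDerivAt (Ip p) lam (q - κ * 0) := by
      rw [mul_zero, sub_zero]; exact hasDerivAt_Ip hp0 hp1 hq0 hq1
    have h1 : HasDerivAt (Ip p ∘ fun e : ℝ => q - κ * e) (lam * (-κ)) 0 :=
      HasDerivAt.comp (0 : ℝ) (h₂ := Ip p) h0 hr
    have h2 : HasDerivAt (fun e : ℝ => (1 - e) ^ 2) (-2) 0 := by
      refine (h1e.pow 2).congr_deriv ?_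
      simp
    have h3 : HasDerivAt (fun e : ℝ => (1 - (1 - e) ^ 2) * Ip p u) (2 * Ip p u) 0 := by
      refine ((h2.const_sub 1).mul_const _).congr_deriv ?_
      ring
    refine (h3.add (h2.mul h1)).congr_deriv ?_
    simp
    ring
  have evT := pos_deriv hT (by
    have hq2a : (0 : ℝ) < q ^ 2 := by positivity
    simp only [Pi.pow_apply, hV0, hM0]
    have e1 : (a : ℝ) * (q ^ 2) ^ (a - 1) = a * (q ^ 2) ^ a / q ^ 2 := by
      obtain ⟨a', rfl⟩ : ∃ a', a = a' + 1 := ⟨a - 1, by omega⟩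
      rw [Nat.add_sub_cancel]
      field_simp
      try ring
    have e2 : (b : ℝ) * q ^ (b - 1) = b * q ^ b / q := by
      rcases b.eq_zero_or_pos with h | h
      · subst h; simp
      · obtain ⟨b', rfl⟩ : ∃ b', b = b' + 1 := ⟨b - 1, by omega⟩
        rw [Nat.add_sub_cancel, pow_succ]
        field_simp
    rw [e1, e2]
    have e3 : (a : ℝ) * (q ^ 2) ^ a / q ^ 2 * (u ^ 2 - q ^ 2 + 2 * q * (u - q - κ)) * q ^ b +
        (q ^ 2) ^ a * (b * q ^ b / q * (2 * (u - q) - κ)) =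
        (q ^ 2) ^ a * q ^ b / q ^ 2 * (a * ((u - q) * (u + 3 * q)) + b * (2 * q * (u - q)) -
          κ * ((2 * a + b) * q)) := by
      field_simp
      ring
    rw [e3]
    apply mul_pos (by positivity)
    linarith)
  have evC := pos_deriv hC.neg (by linarith)
  have hrc : Tendsto (fun e : ℝ => q - κ * e) (𝓝[>] 0) (𝓝 q) := by
    have h1 : Continuous (fun e : ℝ => q - κ * e) := by fun_prop
    have := (h1.tendsto 0).mono_left (nhdsWithin_le_nhds (s := Ioi (0 : ℝ)))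
    simpa using this
  have ev1 := hrc.eventually (lt_mem_nhds hq0)
  have ev2 := hrc.eventually (gt_mem_nhds hq1)
  have ev3 : ∀ᶠ e in 𝓝[>] (0 : ℝ), e < 1 := nhdsWithin_le_nhds (gt_mem_nhds one_pos)
  obtain ⟨e, h1, h2, h3, h4, h5, h6⟩ := (evT.and (evC.and (ev1.and (ev2.and
    (ev3.and self_mem_nhdsWithin))))).exists
  refine ⟨e, q - κ * e, h6, h5, h3.le, h4.le, ?_, ?_⟩
  · simp only [Pi.mul_apply, Pi.pow_apply, hV0, hM0] at h1
    rw [pow_add, pow_mul]
    exact h1.le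
  · have hC0 : podC p u 0 (q - κ * 0) = Ip p q := by unfold podC; ring_nf
    simp only [Pi.neg_apply, hC0] at h2
    linarith

end Pool.Agent.H767R5.UT
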