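import Mathlib
import Pool.Agent.H767R5.UT.Pod

/-!
MP_bbc525_pr (helper767): graphons, homomorphism densities, the variational problem.
-/

set_option autoImplicit false

namespace Pool.Agent.H767R5.UT

open MeasureTheory Filter Topology Set

/-- A graphon: a symmetric measurable function `[0,1]² → [0,1]`. -/
structure Graphon where
  toFun : unitInterval → unitInterval → ℝ
  measurable : Measurable (Function.uncurry toFun)
  symm : ∀ x y, toFun x y = toFun y x
  nonneg : ∀ x y, 0 ≤ toFun x y
  le_one : ∀ x y, toFun x y ≤ 1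

/-- `W(x_i, x_j)` for an unordered pair `{i, j}`. -/
def Graphon.edgeVal (W : Graphon) {V : Type} (x : V → unitInterval) : Sym2 V → ℝ :=
  Sym2.lift ⟨fun i j => W.toFun (x i) (x j), fun i j => W.symm (x i) (x j)⟩

/-- The homomorphism density `t(H, W)` of a finite graph `H` in a graphon `W`. -/
noncomputable def homDensity {V : Type} [Fintype V] (H : SimpleGraph V) (W : Graphon) : ℝ :=
  ∫ x : V → unitInterval, ∏ e ∈ (Set.toFinite H.edgeSet).toFinset, W.edgeVal x e

/-- The cost `E[I_p(W)] = ∫∫ I_p(W(x,y)) dx dy`. -/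
noncomputable def cost (p : ℝ) (W : Graphon) : ℝ :=
  ∫ z : unitInterval × unitInterval, Ip p (W.toFun z.1 z.2)

/-- `W` is feasible for the upper tail problem: `t(H, W) ≥ q^{e(H)}`. -/
def Feasible {V : Type} [Fintype V] (H : SimpleGraph V) (q : ℝ) (W : Graphon) : Prop :=
  q ^ H.edgeSet.ncard ≤ homDensity H W

/-- The upper tail variational problem `UT_p(H, q)`. -/
noncomputable def UT {V : Type} [Fintype V] (H : SimpleGraph V) (p q : ℝ) : ℝ :=
  sInf {c | ∃ W : Graphon, Feasible H q W ∧ c = cost p W}

/-- The star `K_{1,2}` on the vertices `0, 1, 2`, with centre `0`. -/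
def cherry : SimpleGraph (Fin 3) := SimpleGraph.fromEdgeSet {s(0, 1), s(0, 2)}

theorem cherry_edgeSet : cherry.edgeSet = {s(0, 1), s(0, 2)} := by
  unfold cherry
  rw [SimpleGraph.edgeSet_fromEdgeSet]
  ext e
  simp only [Set.mem_sdiff, Set.mem_insert_iff, Set.mem_singleton_iff]
  constructor
  · rintro ⟨h, _⟩; exact h
  · intro h
    refine ⟨h, ?_⟩
    rcases h with h | h <;> subst h <;> simp

theorem cherry_ncard : cherry.edgeSet.ncard = 2 := by
  rw [cherry_edgeSet]
  exact Set.ncard_pair (by decide)

/-- The degree function. -/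
noncomputable def Graphon.deg (W : Graphon) (x : unitInterval) : ℝ := ∫ y, W.toFun x y

theorem Graphon.intRow (W : Graphon) (x : unitInterval) :
    Integrable (fun y => W.toFun x y) (volume : Measure unitInterval) :=
  bdd_int _ (W.measurable.comp measurable_prodMk_left) 1 (fun y => by
    rw [abs_le]; constructor <;> linarith [W.nonneg x y, W.le_one x y])

theorem homDensity_cherry (W : Graphon) : homDensity cherry W = ∫ x, (W.deg x) ^ 2 := by
  unfold homDensity
  have hfin : (Set.toFinite cherry.edgeSet).toFinset = {s(0, 1), s(0, 2)} := by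
    ext e
    rw [Set.Finite.mem_toFinset, cherry_edgeSet]
    simp
  rw [hfin]
  have hprod : ∀ x : Fin 3 → unitInterval, ∏ e ∈ ({s(0, 1), s(0, 2)} : Finset (Sym2 (Fin 3))),
      W.edgeVal x e = W.toFun (x 0) (x 1) * W.toFun (x 0) (x 2) := by
    intro x
    rw [Finset.prod_pair (by decide)]
    rfl
  simp only [hprod]
  have hmp := volume_preserving_piFinSuccAbove (fun _ : Fin 3 => unitInterval) 0
  set g : unitInterval × (Fin 2 → unitInterval) → ℝ :=
    fun z => W.toFun z.1 (z.2 0) * W.toFun z.1 (z.2 1) with hg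
  have hcomp := hmp.integral_comp' g
  have hlhs : ∫ x : Fin 3 → unitInterval, W.toFun (x 0) (x 1) * W.toFun (x 0) (x 2) =
      ∫ x : Fin 3 → unitInterval, g ((MeasurableEquiv.piFinSuccAbove (fun _ => unitInterval) 0) x) := by
    rfl
  rw [hlhs, hcomp]
  have hgm : Measurable g := by
    have h1 : Measurable (fun z : unitInterval × (Fin 2 → unitInterval) => (z.1, z.2 0)) := by
      fun_prop
    have h2 : Measurable (fun z : unitInterval × (Fin 2 → unitInterval) => (z.1, z.2 1)) := by
      fun_prop
    exact (W.measurable.comp h1).mul (W.measurable.comp h2)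
  have hgi : Integrable g (volume : Measure (unitInterval × (Fin 2 → unitInterval))) := by
    refine bdd_int _ hgm 1 (fun z => ?_)
    rw [hg, abs_of_nonneg (mul_nonneg (W.nonneg _ _) (W.nonneg _ _))]
    exact mul_le_one₀ (W.le_one _ _) (W.nonneg _ _) (W.le_one _ _)
  rw [Measure.volume_eq_prod, integral_prod _ hgi]
  apply integral_congr_ae
  refine Eventually.of_forall (fun x => ?_)
  have h3 := integral_fintype_prod_volume_eq_prod (𝕜 := ℝ) (ι := Fin 2)
    (E := fun _ => unitInterval) (fun _ y => W.toFun x y)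
  simp only [Fin.prod_univ_two] at h3
  show ∫ y : Fin 2 → unitInterval, W.toFun x (y 0) * W.toFun x (y 1) = _
  rw [h3]
  unfold Graphon.deg
  ring

end Pool.Agent.H767R5.UT
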