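import Mathlib
import Pool.Agent.H767R5.UT.Suff

/-!
MP_bbc525_pr (helper767): the sufficiency half for the constraint `v^a m^b ≥ q^(2a+b)`.
-/

set_option autoImplicit false

namespace Pool.Agent.H767R5.UT

open MeasureTheory Filter Topology Set

theorem A_mono {a b : ℝ} (ha : 0 ≤ a) (hab : a ≤ b) (hb : b < 1) : Aser a ≤ Aser b := by
  refine hasSum_le (fun k => ?_) (hasSum_A ha (lt_of_le_of_lt hab hb))
    (hasSum_A (ha.trans hab) hb)
  apply div_le_div_of_nonneg_right (pow_le_pow_left₀ ha hab k)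
  positivity

theorem Hf_slope {b s s' : ℝ} (hb : 0 ≤ b) (hbs : b ≤ s) (hss : s ≤ s') (hs' : s' ≤ 1)
    (hb1 : b < 1) :
    Hf ((1 + Real.sqrt s) / 2) + Aser b / 2 * (s' - s) ≤ Hf ((1 + Real.sqrt s') / 2) := by
  have open_case : ∀ t, s ≤ t → t < 1 →
      Hf ((1 + Real.sqrt s) / 2) + Aser b / 2 * (t - s) ≤ Hf ((1 + Real.sqrt t) / 2) := by
    intro t h1 h2
    have hs1 : s < 1 := lt_of_le_of_lt h1 h2
    have e1 := Phi_eq_Hf (hb.trans hbs) hs1
    have e2 := Phi_eq_Hf ((hb.trans hbs).trans h1) h2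
    have h3 := Phi_tangent ((hb.trans hbs).trans h1) h2 (hb.trans hbs) hs1
    have h4 := A_mono hb hbs hs1
    have h5 : Aser b / 2 * (t - s) ≤ Aser s / 2 * (t - s) := by
      apply mul_le_mul_of_nonneg_right _ (by linarith)
      linarith
    linarith
  rcases hs'.eq_or_lt with h | h
  · rcases hss.eq_or_lt with h2 | h2
    · rw [h2]; simp
    · subst h
      set g : ℝ → ℝ := fun t => Hf ((1 + Real.sqrt t) / 2) -
        (Hf ((1 + Real.sqrt s) / 2) + Aser b / 2 * (t - s)) with hg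
      have hc : Continuous g := by
        have := continuous_Hf
        simp only [hg]
        fun_prop
      have hseq : Tendsto (fun n : ℕ => 1 - (1 - s) * (1 / ((n : ℝ) + 1))) atTop
          (𝓝 (1 - (1 - s) * 0)) :=
        (tendsto_one_div_add_atTop_nhds_zero_nat.const_mul _).const_sub _
      rw [mul_zero, sub_zero] at hseq
      have hlim := (hc.tendsto 1).comp hseq
      have hnn : 0 ≤ g 1 := by
        refine ge_of_tendsto' hlim (fun n => ?_)
        have hn : (0 : ℝ) < (n : ℝ) + 1 := by positivity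
        have hn1 : 1 / ((n : ℝ) + 1) ≤ 1 := by
          rw [div_le_one hn]; linarith [Nat.cast_nonneg (α := ℝ) n]
        have hn0 : 0 < 1 / ((n : ℝ) + 1) := by positivity
        have := open_case (1 - (1 - s) * (1 / ((n : ℝ) + 1))) (by nlinarith) (by nlinarith)
        simp only [Function.comp, hg]
        linarith
      simp only [hg] at hnn
      linarith
  · exact open_case s' hss h

/-- The final scalar inequality with a general edge weight. -/
theorem final_ab {q m v ρ h : ℝ} (hq0 : 0 < q) (hq1 : q < 1) (hρ : 0 ≤ ρ) (hm : q ^ 2 ≤ m)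
    (hmq : m ≤ q) (hv : q ^ 2 + ρ * q * (q - m) ≤ v) (hvm : v ≤ m)
    (hh : -((2 + 4 * q + 4 * ρ * q) * Aser ((2 * q - 1) ^ 2)) ≤ h) :
    Dq q m / 3 ≤ 2 * Hf ((1 + Real.sqrt (4 * v - 4 * m + 1)) / 2) - Hf m - Hf q +
      (q - m) * h := by
  set A : ℝ := Aser ((2 * q - 1) ^ 2) with hA
  have h1 := final_closed (h := h + 4 * ρ * q * A) hq0 hq1 hm hmq (by
    rw [← hA]; linarith)
  have hb1 : (2 * q - 1) ^ 2 < 1 := by nlinarith
  have hbm : 0 ≤ q - m := by linarith
  have hprod : 0 ≤ ρ * q * (q - m) := by positivity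
  have h2 := Hf_slope (b := (2 * q - 1) ^ 2) (s := 4 * q ^ 2 - 4 * m + 1)
    (s' := 4 * v - 4 * m + 1) (sq_nonneg _) (by nlinarith) (by linarith) (by linarith) hb1
  have hA0 : 0 ≤ A := tsum_nonneg (fun k => by positivity)
  rw [← hA] at h2
  have h3 : A / 2 * (4 * (ρ * q * (q - m))) ≤
      A / 2 * ((4 * v - 4 * m + 1) - (4 * q ^ 2 - 4 * m + 1)) := by
    apply mul_le_mul_of_nonneg_left _ (by linarith)
    linarith
  nlinarith

theorem constraint_lin {q m v : ℝ} (a b : ℕ) (ha : 0 < a) (hq0 : 0 < q) (hv0 : 0 ≤ v)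
    (hvm : v ≤ m) (hc : q ^ (2 * a + b) ≤ v ^ a * m ^ b) :
    q ^ 2 + (b / a : ℝ) * q * (q - m) ≤ v := by
  have hpos : 0 < v ^ a * m ^ b := lt_of_lt_of_le (by positivity) hc
  have hvpos : 0 < v := by
    rcases hv0.eq_or_lt with h | h
    · rw [← h, zero_pow ha.ne'] at hpos; simp at hpos
    · exact h
  have hmpos : 0 < m := lt_of_lt_of_le hvpos hvm
  have hlog := Real.log_le_log (by positivity) hc
  rw [Real.log_mul (by positivity) (by positivity), Real.log_pow, Real.log_pow, Real.log_pow]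
    at hlog
  push_cast at hlog
  have h1 := Real.log_le_sub_one_of_pos (div_pos hvpos (by positivity : 0 < q ^ 2))
  have h2 := Real.log_le_sub_one_of_pos (div_pos hmpos hq0)
  rw [Real.log_div hvpos.ne' (by positivity), Real.log_pow] at h1
  rw [Real.log_div hmpos.ne' hq0.ne'] at h2
  push_cast at h1
  have ha' : (0 : ℝ) < a := by exact_mod_cast ha
  have hb' : (0 : ℝ) ≤ b := Nat.cast_nonneg b
  have h3 : (a : ℝ) * (Real.log v - 2 * Real.log q) ≤ a * (v / q ^ 2 - 1) :=
    mul_le_mul_of_nonneg_left h1 ha'.le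
  have h4 : (b : ℝ) * (Real.log m - Real.log q) ≤ b * (m / q - 1) :=
    mul_le_mul_of_nonneg_left h2 hb'
  have h5 : 0 ≤ a * (v / q ^ 2 - 1) + b * (m / q - 1) := by linarith
  have h6 : a * (v / q ^ 2 - 1) + b * (m / q - 1) = (a * (v - q ^ 2) - b * q * (q - m)) / q ^ 2 := by
    field_simp
    ring
  rw [h6] at h5
  have h7 : 0 ≤ a * (v - q ^ 2) - b * q * (q - m) := by
    by_contra hcon
    push Not at hcon
    have := div_neg_of_neg_of_pos hcon (by positivity : 0 < q ^ 2)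
    linarith
  have h8 : (b / a : ℝ) * q * (q - m) = b * q * (q - m) / a := by ring
  rw [h8]
  have h9 : b * q * (q - m) / a ≤ v - q ^ 2 := by
    rw [div_le_iff₀ ha']; linarith
  linarith

variable {Ω : Type*} [MeasurableSpace Ω] (μ : Measure Ω) [IsProbabilityMeasure μ]

/-- Sufficiency of the condition and uniqueness of the minimizer. -/
theorem suff_ab (W : Ω → Ω → ℝ) (hm : Measurable (Function.uncurry W))
    (hsym : ∀ x y, W x y = W y x) (hlo : ∀ x y, 0 ≤ W x y) (hhi : ∀ x y, W x y ≤ 1)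
    {p q : ℝ} (a b : ℕ) (ha : 0 < a) (hp0 : 0 < p) (hpq : p ≤ q) (hq1 : q < 1)
    (hv : q ^ (2 * a + b) ≤ (∫ x, (∫ y, W x y ∂μ) ^ 2 ∂μ) ^ a * (∫ x, (∫ y, W x y ∂μ) ∂μ) ^ b)
    (hh : -((2 + 4 * q + 4 * (b / a) * q) * Aser ((2 * q - 1) ^ 2)) ≤
      Real.log p - Real.log (1 - p)) :
    Ip p q ≤ ∫ z, Ip p (W z.1 z.2) ∂(μ.prod μ) ∧
      (∫ z, Ip p (W z.1 z.2) ∂(μ.prod μ) = Ip p q → ∀ᵐ z ∂(μ.prod μ), W z.1 z.2 = q) := by
  have hq0 : 0 < q := lt_of_lt_of_le hp0 hpq
  have hp1 : p < 1 := lt_of_le_of_lt hpq hq1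
  have hgen := entropy_general μ W hm hsym hlo hhi
  set d : Ω → ℝ := fun x => ∫ y, W x y ∂μ with hd
  have hdm : Measurable d := (hm.stronglyMeasurable.integral_prod_right).measurable
  have hWx : ∀ x, Measurable (W x) := fun x => hm.comp measurable_prodMk_left
  have hWint : ∀ x, Integrable (W x) μ := fun x => bdd_int μ (hWx x) 1 (fun y => by
    rw [abs_le]; constructor <;> linarith [hlo x y, hhi x y])
  have hdlo : ∀ x, 0 ≤ d x := fun x => integral_nonneg (hlo x)
  have hdhi : ∀ x, d x ≤ 1 := fun x => by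
    have := integral_mono (μ := μ) (hWint x) (integrable_const (1 : ℝ)) (fun y => hhi x y)
    simpa using this
  have hdint : Integrable d μ := bdd_int μ hdm 1 (fun y => by
    rw [abs_le]; constructor <;> linarith [hdlo y, hdhi y])
  have hd2int : Integrable (fun x => d x ^ 2) μ := bdd_int μ (hdm.pow_const 2) 1 (fun y => by
    rw [abs_of_nonneg (sq_nonneg _)]; nlinarith [hdlo y, hdhi y])
  set m : ℝ := ∫ x, d x ∂μ with hmdef
  set v : ℝ := ∫ x, d x ^ 2 ∂μ with hvdef
  have hv' : q ^ (2 * a + b) ≤ v ^ a * m ^ b := hv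
  have hv0 : 0 ≤ v := integral_nonneg (fun x => sq_nonneg _)
  have hvm : v ≤ m := integral_mono hd2int hdint (fun x => by
    simp only []
    nlinarith [hdlo x, hdhi x])
  have hcl := constraint_lin a b ha hq0 hv0 hvm hv'
  have hs : ∫ x, (2 * d x - 1) ^ 2 ∂μ = 4 * v - 4 * m + 1 := by
    have e : ∀ x, (2 * d x - 1) ^ 2 = (4 * d x ^ 2 - 4 * d x) + 1 := fun x => by ring
    have j1 : Integrable (fun x => 4 * d x ^ 2) μ := hd2int.const_mul 4
    have j2 : Integrable (fun x => 4 * d x) μ := hdint.const_mul 4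
    have j3 : Integrable (fun x => 4 * d x ^ 2 - 4 * d x) μ := j1.sub j2
    have hc : ∫ _x : Ω, (1 : ℝ) ∂μ = 1 := by simp
    simp only [e]
    rw [integral_add j3 (integrable_const _), integral_sub j1 j2, integral_const_mul,
      integral_const_mul, hc]
  rw [hs] at hgen
  have hWm : Measurable (fun z : Ω × Ω => W z.1 z.2) := hm
  have hWprod : Integrable (fun z : Ω × Ω => W z.1 z.2) (μ.prod μ) :=
    bdd_int _ hWm 1 (fun z => by rw [abs_le]; constructor <;> linarith [hlo z.1 z.2, hhi z.1 z.2])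
  have vW : ∫ z, W z.1 z.2 ∂(μ.prod μ) = m := by
    rw [integral_prod _ hWprod]
  have hIint : ∀ r : ℝ, 0 < r → r < 1 →
      Integrable (fun z : Ω × Ω => Ip r (W z.1 z.2)) (μ.prod μ) := by
    intro r hr0 hr1
    obtain ⟨C, hC⟩ := (isCompact_Icc (a := (0 : ℝ)) (b := 1)).exists_bound_of_continuousOn
      (continuous_Ip hr0 hr1).continuousOn
    exact bdd_int _ ((continuous_Ip hr0 hr1).measurable.comp hWm) C
      (fun z => hC _ ⟨hlo _ _, hhi _ _⟩)
  set lam : ℝ := (Real.log q - Real.log (1 - q)) - (Real.log p - Real.log (1 - p)) with hlam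
  have hlam0 : 0 ≤ lam := by
    have h1 := Real.log_le_log hp0 hpq
    have h2 := Real.log_le_log (by linarith : 0 < 1 - q) (by linarith : 1 - q ≤ 1 - p)
    simp only [hlam]; linarith
  have hexp : ∫ z, Ip p (W z.1 z.2) ∂(μ.prod μ) =
      Ip p q + (m - q) * lam + ∫ z, Ip q (W z.1 z.2) ∂(μ.prod μ) := by
    have j1 : Integrable (fun z : Ω × Ω => W z.1 z.2 - q) (μ.prod μ) :=
      hWprod.sub (integrable_const q)
    have j2 : Integrable (fun z : Ω × Ω => (W z.1 z.2 - q) * lam) (μ.prod μ) := j1.mul_const _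
    have j3 : Integrable (fun z : Ω × Ω => Ip p q + (W z.1 z.2 - q) * lam) (μ.prod μ) :=
      (integrable_const _).add j2
    have hc1 : ∫ _z : Ω × Ω, Ip p q ∂(μ.prod μ) = Ip p q := by simp
    have hc2 : ∫ _z : Ω × Ω, q ∂(μ.prod μ) = q := by simp
    have e : ∀ z : Ω × Ω, Ip p (W z.1 z.2) = (Ip p q + (W z.1 z.2 - q) * lam) +
        Ip q (W z.1 z.2) := fun z => Ip_expand hp0 hp1 hq0 hq1 _
    simp only [e]
    rw [integral_add j3 (hIint q hq0 hq1), integral_add (integrable_const _) j2,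
      integral_mul_const, integral_sub hWprod (integrable_const q), vW, hc1, hc2]
  have hIq0 : 0 ≤ ∫ z, Ip q (W z.1 z.2) ∂(μ.prod μ) :=
    integral_nonneg (fun z => Ip_nonneg hq0 hq1 (hlo _ _) (hhi _ _))
  rcases lt_or_ge m q with hmq | hmq
  · -- `m < q`: strict inequality
    have ha' : (0 : ℝ) < a := by exact_mod_cast ha
    have hρ : (0 : ℝ) ≤ (b / a : ℝ) := by positivity
    have hnn : 0 ≤ (b / a : ℝ) * q * (q - m) := by
      have : 0 ≤ q - m := by linarith
      positivity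
    have hm2 : q ^ 2 ≤ m := by linarith
    have hfin := final_ab (h := Real.log p - Real.log (1 - p)) hq0 hq1 hρ hm2 hmq.le hcl hvm hh
    have hD := Dq_pos hq0 hq1 hm2 hmq
    have hHint : ∫ z, Hf (W z.1 z.2) ∂(μ.prod μ) =
        ∫ z, Ip p (W z.1 z.2) ∂(μ.prod μ) + m * Real.log p + (1 - m) * Real.log (1 - p) := by
      have e : ∀ z : Ω × Ω, Hf (W z.1 z.2) = Ip p (W z.1 z.2) + W z.1 z.2 * Real.log p +
          (1 - W z.1 z.2) * Real.log (1 - p) := fun z => by
        rw [Ip_eq hp0 hp1]; ring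
      have j1 : Integrable (fun z : Ω × Ω => W z.1 z.2 * Real.log p) (μ.prod μ) :=
        hWprod.mul_const _
      have j0 : Integrable (fun z : Ω × Ω => 1 - W z.1 z.2) (μ.prod μ) :=
        (integrable_const 1).sub hWprod
      have j2 : Integrable (fun z : Ω × Ω => (1 - W z.1 z.2) * Real.log (1 - p)) (μ.prod μ) :=
        j0.mul_const _
      have j3 : Integrable (fun z : Ω × Ω => Ip p (W z.1 z.2) + W z.1 z.2 * Real.log p)
        (μ.prod μ) := (hIint p hp0 hp1).add j1
      have hc1 : ∫ _z : Ω × Ω, (1 : ℝ) ∂(μ.prod μ) = 1 := by simp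
      simp only [e]
      rw [integral_add j3 j2, integral_add (hIint p hp0 hp1) j1, integral_mul_const,
        integral_mul_const, integral_sub (integrable_const _) hWprod, vW, hc1]
    rw [hHint] at hgen
    have hIpq := Ip_eq hp0 hp1 q
    have hstrict : Ip p q < ∫ z, Ip p (W z.1 z.2) ∂(μ.prod μ) := by
      rw [hIpq]
      nlinarith
    exact ⟨hstrict.le, fun h => absurd h hstrict.ne'⟩
  · -- `m ≥ q`
    have h1 : 0 ≤ (m - q) * lam := mul_nonneg (by linarith) hlam0
    refine ⟨by linarith, fun h => ?_⟩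
    have h0 : ∫ z, Ip q (W z.1 z.2) ∂(μ.prod μ) = 0 := by linarith
    have hae := (integral_eq_zero_iff_of_nonneg
      (fun z => Ip_nonneg hq0 hq1 (hlo _ _) (hhi _ _)) (hIint q hq0 hq1)).mp h0
    filter_upwards [hae] with z hz
    exact Ip_eq_zero hq0 hq1 (hlo _ _) (hhi _ _) hz

end Pool.Agent.H767R5.UT
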