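import Mathlib
import Pool.Agent.H767R5.UT.Dens
import Pool.Agent.H767R5.UT.Suff2

/-!
MP_bbc525_pr (helper767): the phase diagram.
-/

set_option autoImplicit false

namespace Pool.Agent.H767R5.UT

open MeasureTheory Filter Topology Set

/-- Graphs built from `a` copies of `K_{1,2}` and `b` copies of `K_2` (analytic form). -/
def HasType {V : Type} [Fintype V] (H : SimpleGraph V) (a b : ℕ) : Prop :=
  H.edgeSet.ncard = 2 * a + b ∧
    ∀ W : Graphon, homDensity H W = (∫ x, (W.deg x) ^ 2) ^ a * (∫ x, W.deg x) ^ b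

theorem hasType_cherry : HasType cherry 1 0 :=
  ⟨cherry_ncard, fun W => by rw [homDensity_cherry]; simp⟩

/-- The constant graphon. -/
noncomputable def constGraphon (q : ℝ) (h0 : 0 ≤ q) (h1 : q ≤ 1) : Graphon where
  toFun := fun _ _ => q
  measurable := measurable_const
  symm := fun _ _ => rfl
  nonneg := fun _ _ => h0
  le_one := fun _ _ => h1

/-- The pod graphon: `u` if `x ≤ e` or `y ≤ e`, and `r` otherwise. -/
noncomputable def podGraphon (e : unitInterval) (u r : ℝ) (hu0 : 0 ≤ u) (hu1 : u ≤ 1) (hr0 : 0 ≤ r)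
    (hr1 : r ≤ 1) : Graphon where
  toFun := fun x y => if x ≤ e ∨ y ≤ e then u else r
  measurable := by
    have hset : MeasurableSet {z : unitInterval × unitInterval | z.1 ≤ e ∨ z.2 ≤ e} := by
      have h1 : MeasurableSet ((Prod.fst : unitInterval × unitInterval → unitInterval) ⁻¹'
        (Set.Iic e)) := measurable_fst measurableSet_Iic
      have h2 : MeasurableSet ((Prod.snd : unitInterval × unitInterval → unitInterval) ⁻¹'
        (Set.Iic e)) := measurable_snd measurableSet_Iic
      exact h1.union h2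
    exact Measurable.ite hset measurable_const measurable_const
  symm := fun x y => by simp only [or_comm]
  nonneg := fun x y => by split_ifs <;> assumption
  le_one := fun x y => by split_ifs <;> assumption

theorem integral_step (e : unitInterval) (α β : ℝ) :
    ∫ y : unitInterval, (if y ≤ e then α else β) = e * α + (1 - e) * β := by
  have h : ∀ y : unitInterval, (if y ≤ e then α else β) =
      (Set.Iic e).indicator (fun _ => α - β) y + β := by
    intro y
    by_cases hy : y ≤ e
    · simp [hy]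
    · simp [hy]
  simp only [h]
  rw [integral_add ((integrable_const _).indicator measurableSet_Iic) (integrable_const _),
    integral_indicator_const _ measurableSet_Iic]
  have hv : (volume : Measure unitInterval).real (Set.Iic e) = e := by
    rw [Measure.real, unitInterval.volume_Iic, ENNReal.toReal_ofReal e.2.1]
  rw [hv]
  simp
  ring

theorem pod_deg (e : unitInterval) (u r : ℝ) (hu0 : 0 ≤ u) (hu1 : u ≤ 1) (hr0 : 0 ≤ r)
    (hr1 : r ≤ 1) (x : unitInterval) :
    (podGraphon e u r hu0 hu1 hr0 hr1).deg x = if x ≤ e then u else e * u + (1 - e) * r := by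
  unfold Graphon.deg podGraphon
  by_cases hx : x ≤ e
  · simp [hx]
  · simp only [hx, false_or, if_false]
    exact integral_step e u r

theorem pod_v (e : unitInterval) (u r : ℝ) (hu0 : 0 ≤ u) (hu1 : u ≤ 1) (hr0 : 0 ≤ r)
    (hr1 : r ≤ 1) :
    ∫ x, ((podGraphon e u r hu0 hu1 hr0 hr1).deg x) ^ 2 = podV u e r := by
  simp only [pod_deg]
  have h : ∀ x : unitInterval, (if x ≤ e then u else (e : ℝ) * u + (1 - e) * r) ^ 2 =
      if x ≤ e then u ^ 2 else ((e : ℝ) * u + (1 - e) * r) ^ 2 := by
    intro x; split_ifs <;> rfl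
  simp only [h]
  rw [integral_step]
  rfl

theorem pod_m (e : unitInterval) (u r : ℝ) (hu0 : 0 ≤ u) (hu1 : u ≤ 1) (hr0 : 0 ≤ r)
    (hr1 : r ≤ 1) :
    ∫ x, (podGraphon e u r hu0 hu1 hr0 hr1).deg x = podM u e r := by
  simp only [pod_deg]
  rw [integral_step]
  rfl

theorem cost_integrable {p : ℝ} (hp0 : 0 < p) (hp1 : p < 1) (W : Graphon) :
    Integrable (fun z : unitInterval × unitInterval => Ip p (W.toFun z.1 z.2)) volume := by
  obtain ⟨C, hC⟩ := (isCompact_Icc (a := (0 : ℝ)) (b := 1)).exists_bound_of_continuousOn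
    (continuous_Ip hp0 hp1).continuousOn
  exact bdd_int _ ((continuous_Ip hp0 hp1).measurable.comp W.measurable) C
    (fun z => hC _ ⟨W.nonneg _ _, W.le_one _ _⟩)

theorem pod_cost {p : ℝ} (hp0 : 0 < p) (hp1 : p < 1) (e : unitInterval) (u r : ℝ) (hu0 : 0 ≤ u)
    (hu1 : u ≤ 1) (hr0 : 0 ≤ r) (hr1 : r ≤ 1) :
    cost p (podGraphon e u r hu0 hu1 hr0 hr1) = podC p u e r := by
  unfold cost
  have hI := cost_integrable hp0 hp1 (podGraphon e u r hu0 hu1 hr0 hr1)
  rw [Measure.volume_eq_prod] at hI ⊢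
  rw [integral_prod _ hI]
  have h1 : ∀ x : unitInterval, ∫ y : unitInterval,
      Ip p ((podGraphon e u r hu0 hu1 hr0 hr1).toFun (x, y).1 (x, y).2) =
      if x ≤ e then Ip p u else e * Ip p u + (1 - e) * Ip p r := by
    intro x
    by_cases hx : x ≤ e
    · simp [podGraphon, hx]
    · simp only [podGraphon, hx, false_or, if_false]
      have h2 : ∀ y : unitInterval, Ip p (if y ≤ e then u else r) =
          if y ≤ e then Ip p u else Ip p r := by
        intro y; split_ifs <;> rfl
      simp only [h2]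
      exact integral_step e _ _
  simp only [h1]
  rw [integral_step]
  unfold podC
  ring

theorem cost_nonneg {p : ℝ} (hp0 : 0 < p) (hp1 : p < 1) (W : Graphon) : 0 ≤ cost p W :=
  integral_nonneg (fun z => Ip_nonneg hp0 hp1 (W.nonneg _ _) (W.le_one _ _))

theorem cost_const {p q : ℝ} (h0 : 0 ≤ q) (h1 : q ≤ 1) : cost p (constGraphon q h0 h1) = Ip p q := by
  unfold cost constGraphon
  simp

theorem feasible_const {V : Type} [Fintype V] (H : SimpleGraph V) {q : ℝ} (h0 : 0 ≤ q)
    (h1 : q ≤ 1) {a b : ℕ} (hH : HasType H a b) : Feasible H q (constGraphon q h0 h1) := by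
  unfold Feasible
  rw [hH.1, hH.2]
  have hd : ∀ x, (constGraphon q h0 h1).deg x = q := fun x => by
    unfold Graphon.deg constGraphon; simp
  simp only [hd]
  simp only [integral_const, probReal_univ, smul_eq_mul, one_mul]
  rw [pow_add, pow_mul]

theorem A_le {s : ℝ} (h0 : 0 ≤ s) (h1 : s < 1) : Aser s ≤ 1 / (1 - s) := by
  rw [one_div]
  refine hasSum_le (fun k => ?_) (hasSum_A h0 h1) (hasSum_geometric_of_lt_one h0 h1)
  apply div_le_self (by positivity)
  have : (0 : ℝ) ≤ (k : ℝ) := Nat.cast_nonneg k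
  linarith

theorem A_zero : Aser 0 = 1 := by
  unfold Aser
  rw [tsum_eq_single 0 (fun k hk => by simp [hk])]
  simp

theorem A_nonneg (s : ℝ) (hs : 0 ≤ s) : 0 ≤ Aser s := tsum_nonneg (fun k => by positivity)

/-- The bad value `u`. -/
theorem exists_u {q lam K : ℝ} (hq0 : 0 < q) (hq1 : q < 1) (hK : 0 < K)
    (h : 4 * K * q * Aser ((2 * q - 1) ^ 2) < lam) :
    ∃ u : ℝ, 0 ≤ u ∧ u ≤ 1 ∧ Ip q u * (2 * K * q) < lam * (u - q) ^ 2 := by
  rcases eq_or_ne q (1 / 2) with hq | hq
  · subst hq
    have e0 : (2 * (1 / 2 : ℝ) - 1) ^ 2 = 0 := by norm_num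
    rw [e0, A_zero] at h
    have hlam : 2 * K < lam := by linarith
    have hlam0 : 0 < lam := by linarith
    set s : ℝ := (1 - 2 * K / lam) / 2 with hs
    have h2 : 2 * K / lam < 1 := by rw [div_lt_one hlam0]; exact hlam
    have h3 : 0 < 2 * K / lam := by positivity
    have hs0 : 0 < s := by rw [hs]; linarith
    have hs1 : s < 1 := by rw [hs]; linarith
    have hsq := Real.sqrt_nonneg s
    have hsq1 : Real.sqrt s < 1 := by
      rw [Real.sqrt_lt' one_pos]; simpa using hs1
    refine ⟨(1 + Real.sqrt s) / 2, by linarith, by linarith, ?_⟩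
    have e1 : ((1 + Real.sqrt s) / 2 - 1 / 2) ^ 2 = s / 4 := by
      have := Real.sq_sqrt hs0.le
      nlinarith
    have e2 : Ip (1 / 2) ((1 + Real.sqrt s) / 2) = Phi s := by
      rw [Ip_eq (by norm_num) (by norm_num), Phi_eq_Hf hs0.le hs1]
      have : (1 : ℝ) - 1 / 2 = 1 / 2 := by norm_num
      rw [this, one_div, Real.log_inv]
      ring
    rw [e1, e2]
    have h4 := Phi_tangent (a := 0) (b := s) le_rfl one_pos hs0.le hs1
    have h5 : Phi 0 = 0 := by
      unfold Phi
      rw [tsum_eq_single 0 (fun k _ => by simp)]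
      simp
    have h6 := A_le hs0.le hs1
    have h7 : 1 / (1 - s) < lam / (2 * K) := by
      rw [div_lt_div_iff₀ (by linarith) (by positivity)]
      have : lam * (1 - s) = (lam + 2 * K) / 2 := by
        rw [hs]; field_simp; ring
      rw [this]; linarith
    have h8 : Phi s ≤ Aser s / 2 * s := by rw [h5] at h4; linarith
    have h9 : Aser s < lam / (2 * K) := lt_of_le_of_lt h6 h7
    have h10 : Aser s / 2 * s < lam / (2 * K) / 2 * s := by
      apply mul_lt_mul_of_pos_right _ hs0; linarith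
    have h11 : lam / (2 * K) / 2 * s * (2 * K * (1 / 2)) = lam * (s / 4) := by
      field_simp
      ring
    have h12 : Phi s * (2 * K * (1 / 2)) < lam / (2 * K) / 2 * s * (2 * K * (1 / 2)) := by
      apply mul_lt_mul_of_pos_right (lt_of_le_of_lt h8 h10); positivity
    linarith
  · refine ⟨1 - q, by linarith, by linarith, ?_⟩
    have hlog := logit_eq hq0 hq1
    have e1 : Ip q (1 - q) = 2 * (1 - 2 * q) ^ 2 * Aser ((2 * q - 1) ^ 2) := by
      rw [Ip_eq hq0 hq1]
      unfold Hf
      have : 1 - (1 - q) = q := by ring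
      rw [this]
      have e : (1 - q) * Real.log (1 - q) + q * Real.log q - (1 - q) * Real.log q -
          q * Real.log (1 - q) = -(1 - 2 * q) * (Real.log q - Real.log (1 - q)) := by ring
      rw [e, hlog]; ring
    rw [e1]
    have hne : 1 - 2 * q ≠ 0 := by
      intro h; apply hq; linarith
    have hpos : 0 < (1 - 2 * q) ^ 2 := by positivity
    have e2 : (1 - q - q) ^ 2 = (1 - 2 * q) ^ 2 := by ring
    rw [e2]
    nlinarith

/-- The replica symmetry criterion in logarithmic form, and uniqueness. -/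
theorem criterion {V : Type} [Fintype V] (H : SimpleGraph V) (a b : ℕ) (ha : 0 < a)
    (hH : HasType H a b) {p q : ℝ} (hp0 : 0 < p) (hpq : p ≤ q) (hq1 : q < 1) :
    (UT H p q = Ip p q ↔
      -((2 + 4 * q + 4 * (b / a) * q) * Aser ((2 * q - 1) ^ 2)) ≤
        Real.log p - Real.log (1 - p)) ∧
    (UT H p q = Ip p q → ∀ W : Graphon, Feasible H q W → cost p W = UT H p q →
      ∀ᵐ z : unitInterval × unitInterval, W.toFun z.1 z.2 = q) := by
  have hq0 : 0 < q := lt_of_lt_of_le hp0 hpq
  have hp1 : p < 1 := lt_of_le_of_lt hpq hq1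
  have hsuff : -((2 + 4 * q + 4 * (b / a) * q) * Aser ((2 * q - 1) ^ 2)) ≤
        Real.log p - Real.log (1 - p) → ∀ W : Graphon, Feasible H q W →
        Ip p q ≤ cost p W ∧ (cost p W = Ip p q →
          ∀ᵐ z : unitInterval × unitInterval, W.toFun z.1 z.2 = q) := by
    intro hh W hW
    unfold Feasible at hW
    rw [hH.1, hH.2] at hW
    have := suff_ab (volume : Measure unitInterval) W.toFun W.measurable W.symm W.nonneg W.le_one
      a b ha hp0 hpq hq1 hW hh
    unfold cost
    rw [Measure.volume_eq_prod]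
    exact this
  have hbdd : BddBelow {c | ∃ W : Graphon, Feasible H q W ∧ c = cost p W} :=
    ⟨0, by rintro c ⟨W, _, rfl⟩; exact cost_nonneg hp0 hp1 W⟩
  have hiff : UT H p q = Ip p q ↔
      -((2 + 4 * q + 4 * (b / a) * q) * Aser ((2 * q - 1) ^ 2)) ≤
        Real.log p - Real.log (1 - p) := by
    constructor
    · intro hUT
      by_contra hcon
      push Not at hcon
      have ha' : (0 : ℝ) < a := by exact_mod_cast ha
      have hb' : (0 : ℝ) ≤ b := Nat.cast_nonneg b
      have hlog := logit_eq hq0 hq1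
      set A := Aser ((2 * q - 1) ^ 2) with hA
      have hA0 : 0 ≤ A := A_nonneg _ (sq_nonneg _)
      set lam := (Real.log q - Real.log (1 - q)) - (Real.log p - Real.log (1 - p)) with hlamdef
      have hlam : 4 * (2 + b / a) * q * A < lam := by
        rw [hlamdef, hlog]
        linarith
      have hlam0 : 0 < lam := lt_of_le_of_lt (by positivity) hlam
      obtain ⟨u, hu0, hu1, hu⟩ := exists_u (K := 2 + b / a) hq0 hq1 (by positivity) hlam
      have hU : Ip q u * (2 * (2 * a + b) * q) < lam * a * (u - q) ^ 2 := by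
        have h1 := mul_lt_mul_of_pos_right hu ha'
        have e1 : Ip q u * (2 * (2 + b / a) * q) * a = Ip q u * (2 * (2 * a + b) * q) := by
          field_simp
        rw [e1] at h1
        linarith
      obtain ⟨e, r, he0, he1, hr0, hr1, hc1, hc2⟩ :=
        pod_exists a b ha hp0 hp1 hq0 hq1 hu0 hu1 hlam0 hU
      let e' : unitInterval := ⟨e, he0.le, he1.le⟩
      have hfeas : Feasible H q (podGraphon e' u r hu0 hu1 hr0 hr1) := by
        unfold Feasible
        rw [hH.1, hH.2, pod_v, pod_m]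
        exact hc1
      have hcost : cost p (podGraphon e' u r hu0 hu1 hr0 hr1) < Ip p q := by
        rw [pod_cost hp0 hp1]
        exact hc2
      have hle : UT H p q ≤ cost p (podGraphon e' u r hu0 hu1 hr0 hr1) :=
        csInf_le hbdd ⟨_, hfeas, rfl⟩
      linarith
    · intro hh
      apply IsLeast.csInf_eq
      refine ⟨⟨constGraphon q hq0.le hq1.le, feasible_const H hq0.le hq1.le hH,
        (cost_const hq0.le hq1.le).symm⟩, ?_⟩
      rintro c ⟨W, hW, rfl⟩
      exact (hsuff hh W hW).1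
  refine ⟨hiff, fun hUT W hW hc => ?_⟩
  exact (hsuff (hiff.mp hUT) W hW).2 (hc.trans hUT)

/-- The boundary function: `(1/q - 1)^((1 + 2 (1 + b/a) q) / (1 - 2 q))`, and its limit
`exp (4 + 2 b/a)` at `q = 1/2`. -/
noncomputable def bdry (ρ q : ℝ) : ℝ :=
  if q = 1 / 2 then Real.exp (4 + 2 * ρ) else (q⁻¹ - 1) ^ ((1 + 2 * (1 + ρ) * q) / (1 - 2 * q))

theorem bdry_pos {ρ q : ℝ} (hq0 : 0 < q) (hq1 : q < 1) : 0 < bdry ρ q := by
  unfold bdry
  split_ifs
  · exact Real.exp_pos _
  · apply Real.rpow_pos_of_pos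
    have : 1 < q⁻¹ := (one_lt_inv₀ hq0).mpr hq1
    linarith

theorem log_bdry {ρ q : ℝ} (hq0 : 0 < q) (hq1 : q < 1) :
    Real.log (bdry ρ q) = (2 + 4 * q + 4 * ρ * q) * Aser ((2 * q - 1) ^ 2) := by
  unfold bdry
  split_ifs with h
  · subst h
    have e0 : (2 * (1 / 2 : ℝ) - 1) ^ 2 = 0 := by norm_num
    rw [e0, A_zero, Real.log_exp]; ring
  · have h1 : 0 < q⁻¹ - 1 := by
      have : 1 < q⁻¹ := (one_lt_inv₀ hq0).mpr hq1
      linarith
    rw [Real.log_rpow h1]
    have e1 : q⁻¹ - 1 = (1 - q) / q := by field_simp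
    rw [e1, Real.log_div (by linarith) hq0.ne']
    have hlog := logit_eq hq0 hq1
    have e2 : Real.log (1 - q) - Real.log q = -(2 * (2 * q - 1) * Aser ((2 * q - 1) ^ 2)) := by
      linarith
    rw [e2]
    have hne : 1 - 2 * q ≠ 0 := by
      intro h'; apply h; linarith
    field_simp
    ring

theorem cond_iff {p B : ℝ} (hp0 : 0 < p) (hp1 : p < 1) (hB : 0 < B) :
    1 ≤ (1 + B) * p ↔ -Real.log B ≤ Real.log p - Real.log (1 - p) := by
  have h1 : 0 < 1 - p := by linarith
  constructor
  · intro h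
    have h2 : 1 - p ≤ B * p := by linarith
    have h3 := Real.log_le_log h1 h2
    rw [Real.log_mul hB.ne' hp0.ne'] at h3
    linarith
  · intro h
    have h3 : Real.log (1 - p) ≤ Real.log (B * p) := by
      rw [Real.log_mul hB.ne' hp0.ne']; linarith
    have h4 := (Real.log_le_log_iff h1 (by positivity)).mp h3
    linarith

/-- **Phase diagram.** -/
theorem phase_diagram {V : Type} [Fintype V] (H : SimpleGraph V) (a b : ℕ) (ha : 0 < a)
    (hH : HasType H a b) (p q : ℝ) (hp0 : 0 < p) (hpq : p ≤ q) (hq1 : q < 1) :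
    (UT H p q = Ip p q ↔ 1 ≤ (1 + bdry (b / a) q) * p) ∧
    (UT H p q = Ip p q → ∀ W : Graphon, Feasible H q W → cost p W = UT H p q →
      ∀ᵐ z : unitInterval × unitInterval, W.toFun z.1 z.2 = q) := by
  have hq0 : 0 < q := lt_of_lt_of_le hp0 hpq
  have hp1 : p < 1 := lt_of_le_of_lt hpq hq1
  obtain ⟨h1, h2⟩ := criterion H a b ha hH hp0 hpq hq1
  refine ⟨?_, h2⟩
  rw [cond_iff hp0 hp1 (bdry_pos hq0 hq1), log_bdry hq0 hq1]
  exact h1

end Pool.Agent.H767R5.UT
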