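import Mathlib
import Pool.Agent.H767R5.UT.Main

/-!
MP_bbc525_pr (helper767): disjoint unions of copies of `K_1`, `K_2`, `K_{1,2}`.
-/

set_option autoImplicit false

namespace Pool.Agent.H767R5.UT

open MeasureTheory Filter Topology Set
open scoped SimpleGraph

theorem homDensity_finprod {V : Type} [Fintype V] (H : SimpleGraph V) (W : Graphon) :
    homDensity H W = ∫ x : V → unitInterval, ∏ᶠ e ∈ H.edgeSet, W.edgeVal x e := by
  unfold homDensity
  apply integral_congr_ae
  refine Eventually.of_forall (fun x => ?_)
  exact (finprod_mem_eq_finite_toFinset_prod (fun e => W.edgeVal x e)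
    (Set.toFinite H.edgeSet)).symm

theorem edgeVal_map (W : Graphon) {V V' : Type} (φ : V → V') (x : V' → unitInterval)
    (f : Sym2 V) : W.edgeVal x (Sym2.map φ f) = W.edgeVal (fun v => x (φ v)) f := by
  induction f with
  | h a b => rfl

theorem edgeVal_nonneg (W : Graphon) {V : Type} (x : V → unitInterval) (f : Sym2 V) :
    0 ≤ W.edgeVal x f := by
  induction f with
  | h a b => exact W.nonneg _ _

theorem edgeVal_le_one (W : Graphon) {V : Type} (x : V → unitInterval) (f : Sym2 V) :
    W.edgeVal x f ≤ 1 := by
  induction f with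
  | h a b => exact W.le_one _ _

theorem edgeSet_sum {V V' : Type} (G : SimpleGraph V) (G' : SimpleGraph V') :
    (G ⊕g G').edgeSet = Sym2.map Sum.inl '' G.edgeSet ∪ Sym2.map Sum.inr '' G'.edgeSet := by
  ext f
  induction f with
  | h a b =>
    constructor
    · intro h
      rw [SimpleGraph.mem_edgeSet] at h
      rcases a with a | a <;> rcases b with b | b
      · exact Or.inl ⟨s(a, b), h, rfl⟩
      · exact absurd h (by simp [SimpleGraph.sum])
      · exact absurd h (by simp [SimpleGraph.sum])
      · exact Or.inr ⟨s(a, b), h, rfl⟩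
    · rintro (⟨g, hg, he⟩ | ⟨g, hg, he⟩)
      · rw [← he]
        induction g with
        | h c d => exact hg
      · rw [← he]
        induction g with
        | h c d => exact hg

theorem edgeSet_sum_disjoint {V V' : Type} (G : SimpleGraph V) (G' : SimpleGraph V') :
    Disjoint (Sym2.map (Sum.inl : V → V ⊕ V') '' G.edgeSet)
      (Sym2.map (Sum.inr : V' → V ⊕ V') '' G'.edgeSet) := by
  rw [Set.disjoint_left]
  rintro _ ⟨g, _, rfl⟩ ⟨g', _, h⟩
  induction g with
  | h a b =>
    induction g' with
    | h c d =>
      simp [Sym2.map_mk] at h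

theorem hasType_sum {V V' : Type} [Fintype V] [Fintype V'] (G : SimpleGraph V)
    (G' : SimpleGraph V') {a b a' b' : ℕ} (h : HasType G a b) (h' : HasType G' a' b') :
    HasType (G ⊕g G') (a + a') (b + b') := by
  have hinl : Function.Injective (Sym2.map (Sum.inl : V → V ⊕ V')) :=
    Sym2.map.injective Sum.inl_injective
  have hinr : Function.Injective (Sym2.map (Sum.inr : V' → V ⊕ V')) :=
    Sym2.map.injective Sum.inr_injective
  constructor
  · rw [edgeSet_sum, Set.ncard_union_eq (edgeSet_sum_disjoint G G') (Set.toFinite _)
      (Set.toFinite _), Set.ncard_image_of_injective _ hinl, Set.ncard_image_of_injective _ hinr,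
      h.1, h'.1]
    ring
  · intro W
    have hprod : homDensity (G ⊕g G') W = homDensity G W * homDensity G' W := by
      rw [homDensity_finprod, homDensity_finprod, homDensity_finprod]
      have e1 : ∀ x : V ⊕ V' → unitInterval, ∏ᶠ e ∈ (G ⊕g G').edgeSet, W.edgeVal x e =
          (∏ᶠ e ∈ G.edgeSet, W.edgeVal (fun v => x (Sum.inl v)) e) *
            ∏ᶠ e ∈ G'.edgeSet, W.edgeVal (fun v => x (Sum.inr v)) e := by
        intro x
        rw [edgeSet_sum, finprod_mem_union (edgeSet_sum_disjoint G G') (Set.toFinite _)
          (Set.toFinite _), finprod_mem_image hinl.injOn, finprod_mem_image hinr.injOn]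
        simp only [edgeVal_map]
      simp only [e1]
      have hmp := volume_measurePreserving_sumPiEquivProdPi (fun _ : V ⊕ V' => unitInterval)
      set g1 : (V → unitInterval) → ℝ := fun y => ∏ᶠ e ∈ G.edgeSet, W.edgeVal y e with hg1
      set g2 : (V' → unitInterval) → ℝ := fun y => ∏ᶠ e ∈ G'.edgeSet, W.edgeVal y e with hg2
      have hcomp := hmp.integral_comp' (fun z : (V → unitInterval) × (V' → unitInterval) =>
        g1 z.1 * g2 z.2)
      refine Eq.trans ?_ (hcomp.trans ?_)
      · rfl
      · rw [Measure.volume_eq_prod]
        exact integral_prod_mul g1 g2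
    rw [hprod, h.2, h'.2]
    ring

theorem hasType_iso {V V' : Type} [Fintype V] [Fintype V'] {G : SimpleGraph V}
    {G' : SimpleGraph V'} (e : G ≃g G') {a b : ℕ} (h : HasType G a b) : HasType G' a b := by
  have himg : G'.edgeSet = Sym2.map e '' G.edgeSet := by
    ext f
    induction f with
    | h c d =>
      constructor
      · intro hf
        refine ⟨s(e.symm c, e.symm d), ?_, ?_⟩
        · rw [SimpleGraph.mem_edgeSet] at hf ⊢
          exact e.symm.map_rel_iff.mpr hf
        · simp
      · rintro ⟨g, hg, he⟩
        rw [← he]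
        induction g with
        | h c d =>
          rw [SimpleGraph.mem_edgeSet] at hg
          exact e.map_rel_iff.mpr hg
  have hinj : Function.Injective (Sym2.map (e : V → V')) := Sym2.map.injective e.injective
  constructor
  · rw [himg, Set.ncard_image_of_injective _ hinj, h.1]
  · intro W
    rw [← h.2 W, homDensity_finprod, homDensity_finprod]
    have e1 : ∀ x : V' → unitInterval, ∏ᶠ f ∈ G'.edgeSet, W.edgeVal x f =
        ∏ᶠ f ∈ G.edgeSet, W.edgeVal (fun v => x (e v)) f := by
      intro x
      rw [himg, finprod_mem_image hinj.injOn]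
      simp only [edgeVal_map]
    simp only [e1]
    have hmp := volume_measurePreserving_piCongrLeft (fun _ : V' => unitInterval) e.toEquiv
    have hcomp := hmp.symm.integral_comp' (fun y : V → unitInterval =>
      ∏ᶠ f ∈ G.edgeSet, W.edgeVal y f)
    exact hcomp

theorem hasType_edge : HasType (⊤ : SimpleGraph (Fin 2)) 0 1 := by
  have hE : (⊤ : SimpleGraph (Fin 2)).edgeSet = {s(0, 1)} := by
    ext f
    induction f with
    | h a b =>
      rw [SimpleGraph.mem_edgeSet]
      fin_cases a <;> fin_cases b <;> simp
  constructor
  · rw [hE]; simp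
  · intro W
    rw [homDensity_finprod]
    have e1 : ∀ x : Fin 2 → unitInterval, ∏ᶠ f ∈ (⊤ : SimpleGraph (Fin 2)).edgeSet,
        W.edgeVal x f = W.toFun (x 0) (x 1) := by
      intro x
      rw [hE, finprod_mem_singleton]
      rfl
    simp only [e1]
    have hmp := volume_preserving_piFinTwo (fun _ : Fin 2 => unitInterval)
    have hcomp := hmp.integral_comp' (fun z : unitInterval × unitInterval => W.toFun z.1 z.2)
    have hint : Integrable (fun z : unitInterval × unitInterval => W.toFun z.1 z.2)
        ((volume : Measure unitInterval).prod volume) :=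
      bdd_int _ W.measurable 1 (fun z => by
        rw [abs_le]; constructor <;> linarith [W.nonneg z.1 z.2, W.le_one z.1 z.2])
    have h3 : ∫ z : unitInterval × unitInterval, W.toFun z.1 z.2 = ∫ x, W.deg x := by
      rw [Measure.volume_eq_prod, integral_prod _ hint]
      rfl
    rw [pow_zero, one_mul, pow_one, ← h3]
    exact hcomp

theorem hasType_isolated : HasType (⊥ : SimpleGraph (Fin 1)) 0 0 := by
  constructor
  · simp
  · intro W
    rw [homDensity_finprod]
    simp

/-- Finite graphs that are disjoint unions of copies of `K_1`, `K_2` and `K_{1,2}`;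
`CherryForest i H a b` says that there are `a` copies of `K_{1,2}` and `b` copies of `K_2`
(and any number of isolated vertices). -/
inductive CherryForest : {V : Type} → Fintype V → SimpleGraph V → ℕ → ℕ → Prop
  | isolated : CherryForest (inferInstance : Fintype (Fin 1)) ⊥ 0 0
  | edge : CherryForest (inferInstance : Fintype (Fin 2)) ⊤ 0 1
  | cherry : CherryForest (inferInstance : Fintype (Fin 3)) cherry 1 0
  | union {V V' : Type} {i : Fintype V} {i' : Fintype V'} {G : SimpleGraph V}
      {G' : SimpleGraph V'} {a b a' b' : ℕ} (h : CherryForest i G a b)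
      (h' : CherryForest i' G' a' b') :
      CherryForest (@instFintypeSum V V' i i') (G ⊕g G') (a + a') (b + b')
  | iso {V V' : Type} {i : Fintype V} {i' : Fintype V'} {G : SimpleGraph V}
      {G' : SimpleGraph V'} {a b : ℕ} (h : CherryForest i G a b) (e : G ≃g G') :
      CherryForest i' G' a b

theorem CherryForest.hasType {V : Type} {i : Fintype V} {G : SimpleGraph V} {a b : ℕ}
    (h : CherryForest i G a b) : @HasType V i G a b := by
  induction h with
  | isolated => exact hasType_isolated
  | edge => exact hasType_edge
  | cherry => exact hasType_cherry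
  | union _ _ ih ih' => exact hasType_sum _ _ ih ih'
  | iso _ e ih => exact hasType_iso e ih

end Pool.Agent.H767R5.UT
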