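import Mathlib
import Pool.Agent.H767R5.UT.Fam

/-!
MP_bbc525_pr (helper767): the case `a = 0`, and the uniform statement.
-/

set_option autoImplicit false

namespace Pool.Agent.H767R5.UT

open MeasureTheory Filter Topology Set

theorem suff_mge (W : Graphon) {p q : ℝ} (hp0 : 0 < p) (hpq : p ≤ q) (hq1 : q < 1)
    (hmq : q ≤ ∫ x, W.deg x) :
    Ip p q ≤ cost p W ∧ (cost p W = Ip p q →
      ∀ᵐ z : unitInterval × unitInterval, W.toFun z.1 z.2 = q) := by
  have hq0 : 0 < q := lt_of_lt_of_le hp0 hpq
  have hp1 : p < 1 := lt_of_le_of_lt hpq hq1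
  unfold cost
  rw [Measure.volume_eq_prod]
  have hWprod : Integrable (fun z : unitInterval × unitInterval => W.toFun z.1 z.2)
      ((volume : Measure unitInterval).prod volume) :=
    bdd_int _ W.measurable 1 (fun z => by
      rw [abs_le]; constructor <;> linarith [W.nonneg z.1 z.2, W.le_one z.1 z.2])
  set m : ℝ := ∫ x, W.deg x with hm
  have vW : ∫ z : unitInterval × unitInterval, W.toFun z.1 z.2
      ∂((volume : Measure unitInterval).prod volume) = m := by
    rw [integral_prod _ hWprod]
    rfl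
  have hIint : ∀ r : ℝ, 0 < r → r < 1 →
      Integrable (fun z : unitInterval × unitInterval => Ip r (W.toFun z.1 z.2))
        ((volume : Measure unitInterval).prod volume) := fun r hr0 hr1 =>
    cost_integrable hr0 hr1 W
  set lam : ℝ := (Real.log q - Real.log (1 - q)) - (Real.log p - Real.log (1 - p)) with hlam
  have hlam0 : 0 ≤ lam := by
    have h1 := Real.log_le_log hp0 hpq
    have h2 := Real.log_le_log (by linarith : 0 < 1 - q) (by linarith : 1 - q ≤ 1 - p)
    simp only [hlam]; linarith
  have hexp : ∫ z : unitInterval × unitInterval, Ip p (W.toFun z.1 z.2)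
      ∂((volume : Measure unitInterval).prod volume) =
      Ip p q + (m - q) * lam + ∫ z : unitInterval × unitInterval, Ip q (W.toFun z.1 z.2)
        ∂((volume : Measure unitInterval).prod volume) := by
    have j1 := hWprod.sub (integrable_const q)
    have j1' : Integrable (fun z : unitInterval × unitInterval => W.toFun z.1 z.2 - q)
      ((volume : Measure unitInterval).prod volume) := j1
    have j2 : Integrable (fun z : unitInterval × unitInterval => (W.toFun z.1 z.2 - q) * lam)
      ((volume : Measure unitInterval).prod volume) := j1'.mul_const _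
    have j3 : Integrable (fun z : unitInterval × unitInterval =>
      Ip p q + (W.toFun z.1 z.2 - q) * lam) ((volume : Measure unitInterval).prod volume) :=
      (integrable_const _).add j2
    have hc1 : ∫ _z : unitInterval × unitInterval, Ip p q
      ∂((volume : Measure unitInterval).prod volume) = Ip p q := by simp
    have hc2 : ∫ _z : unitInterval × unitInterval, q
      ∂((volume : Measure unitInterval).prod volume) = q := by simp
    have e : ∀ z : unitInterval × unitInterval, Ip p (W.toFun z.1 z.2) =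
        (Ip p q + (W.toFun z.1 z.2 - q) * lam) +
        Ip q (W.toFun z.1 z.2) := fun z => Ip_expand hp0 hp1 hq0 hq1 _
    simp only [e]
    rw [integral_add j3 (hIint q hq0 hq1), integral_add (integrable_const _) j2,
      integral_mul_const, integral_sub hWprod (integrable_const q), vW, hc1, hc2]
  have hIq0 : 0 ≤ ∫ z : unitInterval × unitInterval, Ip q (W.toFun z.1 z.2)
      ∂((volume : Measure unitInterval).prod volume) :=
    integral_nonneg (fun z => Ip_nonneg hq0 hq1 (W.nonneg _ _) (W.le_one _ _))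
  have h1 : 0 ≤ (m - q) * lam := mul_nonneg (by linarith) hlam0
  refine ⟨by linarith, fun h => ?_⟩
  have h0 : ∫ z : unitInterval × unitInterval, Ip q (W.toFun z.1 z.2)
      ∂((volume : Measure unitInterval).prod volume) = 0 := by linarith
  have hae := (integral_eq_zero_iff_of_nonneg
    (fun z => Ip_nonneg hq0 hq1 (W.nonneg _ _) (W.le_one _ _)) (hIint q hq0 hq1)).mp h0
  filter_upwards [hae] with z hz
  exact Ip_eq_zero hq0 hq1 (W.nonneg _ _) (W.le_one _ _) hz

theorem UT_le {V : Type} [Fintype V] (H : SimpleGraph V) (a b : ℕ) (hH : HasType H a b)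
    {p q : ℝ} (hp0 : 0 < p) (hpq : p ≤ q) (hq1 : q < 1) : UT H p q ≤ Ip p q := by
  have hq0 : 0 < q := lt_of_lt_of_le hp0 hpq
  have hp1 : p < 1 := lt_of_le_of_lt hpq hq1
  have hbdd : BddBelow {c | ∃ W : Graphon, Feasible H q W ∧ c = cost p W} :=
    ⟨0, by rintro c ⟨W, _, rfl⟩; exact cost_nonneg hp0 hp1 W⟩
  exact csInf_le hbdd ⟨constGraphon q hq0.le hq1.le, feasible_const H hq0.le hq1.le hH,
    (cost_const hq0.le hq1.le).symm⟩

theorem phase_zero {V : Type} [Fintype V] (H : SimpleGraph V) (b : ℕ) (hb : 0 < b)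
    (hH : HasType H 0 b) (p q : ℝ) (hp0 : 0 < p) (hpq : p ≤ q) (hq1 : q < 1) :
    UT H p q = Ip p q ∧ ∀ W : Graphon, Feasible H q W → cost p W = UT H p q →
      ∀ᵐ z : unitInterval × unitInterval, W.toFun z.1 z.2 = q := by
  have hq0 : 0 < q := lt_of_lt_of_le hp0 hpq
  have hp1 : p < 1 := lt_of_le_of_lt hpq hq1
  have hfe : ∀ W : Graphon, Feasible H q W → q ≤ ∫ x, W.deg x := by
    intro W hW
    unfold Feasible at hW
    rw [hH.1, hH.2] at hW
    simp only [mul_zero, zero_add, pow_zero, one_mul] at hW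
    have hm0 : 0 ≤ ∫ x, W.deg x := integral_nonneg (fun x => integral_nonneg (W.nonneg x))
    exact (pow_le_pow_iff_left₀ hq0.le hm0 hb.ne').mp hW
  have hUT : UT H p q = Ip p q := by
    apply IsLeast.csInf_eq
    refine ⟨⟨constGraphon q hq0.le hq1.le, feasible_const H hq0.le hq1.le hH,
      (cost_const hq0.le hq1.le).symm⟩, ?_⟩
    rintro c ⟨W, hW, rfl⟩
    exact (suff_mge W hp0 hpq hq1 (hfe W hW)).1
  exact ⟨hUT, fun W hW hc => (suff_mge W hp0 hpq hq1 (hfe W hW)).2 (hc.trans hUT)⟩

theorem phase_all {V : Type} (i : Fintype V) (H : SimpleGraph V) (a b : ℕ)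
    (hH : CherryForest i H a b) (hab : 0 < a + b) (p q : ℝ) (hp0 : 0 < p) (hpq : p ≤ q)
    (hq1 : q < 1) :
    UT H p q ≤ Ip p q ∧
    (UT H p q = Ip p q ↔ a = 0 ∨ 1 ≤ (1 + bdry (b / a) q) * p) ∧
    (UT H p q = Ip p q → ∀ W : Graphon, Feasible H q W → cost p W = UT H p q →
      ∀ᵐ z : unitInterval × unitInterval, W.toFun z.1 z.2 = q) := by
  have hT := hH.hasType
  refine ⟨UT_le H a b hT hp0 hpq hq1, ?_⟩
  rcases Nat.eq_zero_or_pos a with h0 | h0
  · subst h0
    obtain ⟨h1, h2⟩ := phase_zero H b (by omega) hT p q hp0 hpq hq1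
    exact ⟨by simp [h1], fun _ => h2⟩
  · obtain ⟨h1, h2⟩ := phase_diagram H a b h0 hT p q hp0 hpq hq1
    refine ⟨?_, h2⟩
    rw [h1]
    constructor
    · exact Or.inr
    · rintro (h | h)
      · omega
      · exact h

end Pool.Agent.H767R5.UT
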